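import Mathlib
set_option autoImplicit false

/-!
# Plane trees, Bienaymé trees and the largest common subtree (definitions for MP_8702f5_pr)
-/

namespace Pool.Agent.R974.LC

open MeasureTheory
open scoped ENNReal

/-- Finite plane trees. `leaf` is the tree with one vertex, and `graft c s` is the plane tree
obtained from the plane tree `s` by adding the plane tree `c` as a new first subtree of the root:
a plane tree is the list of the subtrees of its root. -/
inductive PT : Type
  | leaf : PT
  | graft : PT → PT → PT
  deriving DecidableEq

namespace PT

/-- The number of vertices. -/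
def size : PT → ℕ
  | leaf => 1
  | graft c s => size c + size s

/-- The number of children of the root. -/
def deg : PT → ℕ
  | leaf => 0
  | graft _ s => deg s + 1

/-- The subtree at the `i`-th child of the root (if there is one). -/
def child : PT → ℕ → Option PT
  | leaf, _ => none
  | graft c _, 0 => some c
  | graft _ s, i + 1 => child s i

/-- The vertices are the words of the Ulam-Harris tree: `subtree t p` is the subtree of the
descendants of the vertex `p`, if `p` is a vertex of `t`, and `none` otherwise. -/
def subtree : PT → List ℕ → Option PT
  | t, [] => some t
  | t, i :: p => (child t i).bind fun c => subtree c p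

/-- The type of the vertices of `t`. -/
def Vert (t : PT) : Type := {p : List ℕ // (subtree t p).isSome}

/-- The tree as a graph: a vertex `p` is joined to its children `p ++ [i]`. -/
def graph (t : PT) : SimpleGraph (Vert t) where
  Adj p q := (∃ i : ℕ, q.1 = p.1 ++ [i]) ∨ ∃ i : ℕ, p.1 = q.1 ++ [i]
  symm := ⟨fun _ _ h => h.symm⟩
  loopless := ⟨fun p h => by
    rcases h with ⟨i, hi⟩ | ⟨i, hi⟩
    · have := congrArg List.length hi
      simp at this
    · have := congrArg List.length hi
      simp at this⟩

/-- The maximum degree of the graph. -/
noncomputable def maxDeg (t : PT) : ℕ :=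
  ⨆ v : Vert t, ((graph t).neighborSet v).ncard

/-- The largest number of vertices of a common subtree: the largest `k` such that some connected
graph with `k` vertices is isomorphic to a subgraph of both trees. -/
noncomputable def lcs (t t' : PT) : ℕ :=
  sSup {k : ℕ | ∃ G : SimpleGraph (Fin k), G.Connected ∧ G.IsContained (graph t) ∧
    G.IsContained (graph t')}

/-- The product of `φ` over the subtrees of the root. -/
noncomputable def prodC (φ : PT → ℝ≥0∞) : PT → ℝ≥0∞
  | leaf => 1
  | graft c s => φ c * prodC φ s

/-- The sum of `ψ` over the subtrees of the root. -/
noncomputable def sumC (ψ : PT → ℝ≥0∞) : PT → ℝ≥0∞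
  | leaf => 0
  | graft c s => ψ c + sumC ψ s

/-- The product of `μ (number of children of v)` over all vertices `v` other than the root. -/
noncomputable def lower (μ : ℕ → ℝ≥0∞) : PT → ℝ≥0∞
  | leaf => 1
  | graft c s => (μ (deg c) * lower μ c) * lower μ s

/-- The product of `μ (number of children of v)` over all vertices `v`: the probability that a
Bienaymé tree with offspring law `μ` is `t`. -/
noncomputable def prob (μ : ℕ → ℝ≥0∞) (t : PT) : ℝ≥0∞ := μ (deg t) * lower μ t

instance : MeasurableSpace PT := ⊤

/-- The law of the Bienaymé tree with offspring law `μ`. -/
noncomputable def law (μ : ℕ → ℝ≥0∞) : Measure PT :=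
  Measure.sum fun t => prob μ t • Measure.dirac t

/-- The law of the Bienaymé tree conditioned to have `n` vertices. -/
noncomputable def condLaw (μ : ℕ → ℝ≥0∞) (n : ℕ) : Measure PT :=
  ProbabilityTheory.cond (law μ) {t | size t = n}

end PT

end Pool.Agent.R974.LC
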