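import Pool.Agent.R974.LC.Main
set_option autoImplicit false

namespace Pool.Agent.R974.LC

open MeasureTheory Filter Topology
open scoped ENNReal

namespace PT

theorem lim_exp (K : ℕ) (κ α : ℝ) (hκ : 0 < κ) (hα : 0 < α) (hα2 : α < 2) :
    Tendsto (fun n : ℕ => (n : ℝ) ^ K * Real.exp (1 - κ * n * ((Nat.sqrt n : ℕ) : ℝ) ^ (-α)))
      atTop (𝓝 0) := by
  have hs : 0 < 1 - α / 2 := by linarith
  set s : ℝ := 1 - α / 2 with hsd
  have h1 : Tendsto (fun n : ℕ => ((n : ℝ) ^ s)) atTop atTop :=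
    (tendsto_rpow_atTop hs).comp tendsto_natCast_atTop_atTop
  have h2 := (tendsto_rpow_mul_exp_neg_mul_atTop_nhds_zero (K / s) κ hκ).comp h1
  have h3 := h2.const_mul (Real.exp 1)
  rw [mul_zero] at h3
  refine squeeze_zero' (Eventually.of_forall fun n => by positivity) ?_ h3
  filter_upwards [eventually_ge_atTop 1] with n hn
  have hn0 : (0 : ℝ) < n := by exact_mod_cast hn
  have hm1 : 1 ≤ Nat.sqrt n := Nat.sqrt_pos.2 hn
  have hm0 : (0 : ℝ) < (Nat.sqrt n : ℕ) := by exact_mod_cast hm1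
  have hm2 : ((Nat.sqrt n : ℕ) : ℝ) ≤ (n : ℝ) ^ (1 / 2 : ℝ) := by
    rw [← Real.sqrt_eq_rpow]
    exact Real.le_sqrt_of_sq_le (by exact_mod_cast Nat.sqrt_le' n)
  have h4 : (n : ℝ) ^ (-(α / 2)) ≤ ((Nat.sqrt n : ℕ) : ℝ) ^ (-α) := by
    calc (n : ℝ) ^ (-(α / 2)) = ((n : ℝ) ^ (1 / 2 : ℝ)) ^ (-α) := by
          rw [← Real.rpow_mul hn0.le]; congr 1; ring
      _ ≤ _ := Real.rpow_le_rpow_of_nonpos hm0 hm2 (by linarith)
  have h5 : κ * (n : ℝ) ^ s ≤ κ * n * ((Nat.sqrt n : ℕ) : ℝ) ^ (-α) := by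
    calc κ * (n : ℝ) ^ s = κ * n * (n : ℝ) ^ (-(α / 2)) := by
          rw [hsd, show (1 - α / 2 : ℝ) = 1 + -(α / 2) by ring, Real.rpow_add hn0, Real.rpow_one]
          ring
      _ ≤ _ := by gcongr
  have h6 : (n : ℝ) ^ K = ((n : ℝ) ^ s) ^ ((K : ℝ) / s) := by
    rw [← Real.rpow_mul hn0.le, mul_div_cancel₀ _ hs.ne', Real.rpow_natCast]
  calc (n : ℝ) ^ K * Real.exp (1 - κ * n * ((Nat.sqrt n : ℕ) : ℝ) ^ (-α))
      ≤ (n : ℝ) ^ K * Real.exp (1 + -κ * (n : ℝ) ^ s) := by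
        gcongr
        linarith
    _ = Real.exp 1 * (((n : ℝ) ^ s) ^ ((K : ℝ) / s) * Real.exp (-κ * (n : ℝ) ^ s)) := by
        rw [Real.exp_add, ← h6]; ring

theorem lim_pow (K : ℕ) (ρ : ℝ) (h0 : 0 < ρ) (h1 : ρ < 1) :
    Tendsto (fun n : ℕ => (n : ℝ) ^ K * ρ ^ (Nat.sqrt n)) atTop (𝓝 0) := by
  have h2 : Tendsto (fun m : ℕ => ((m : ℝ) ^ (2 * K) * ρ ^ m)) atTop (𝓝 0) :=
    tendsto_pow_const_mul_const_pow_of_abs_lt_one (2 * K) (by rw [abs_of_pos h0]; exact h1)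
  have h3 : Tendsto (fun n : ℕ => Nat.sqrt n + 1) atTop atTop :=
    tendsto_atTop_atTop.2 fun b => ⟨b * b, fun a ha =>
      le_trans (Nat.le_sqrt.2 ha) (Nat.le_succ _)⟩
  have h4 := (h2.comp h3).const_mul (1 / ρ)
  rw [mul_zero] at h4
  refine squeeze_zero (fun n => by positivity) (fun n => ?_) h4
  have h5 : (n : ℝ) ≤ ((Nat.sqrt n + 1 : ℕ) : ℝ) ^ 2 := by
    have := Nat.lt_succ_sqrt' n
    exact_mod_cast this.le
  calc (n : ℝ) ^ K * ρ ^ (Nat.sqrt n)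
      ≤ (((Nat.sqrt n + 1 : ℕ) : ℝ) ^ 2) ^ K * ρ ^ (Nat.sqrt n) := by gcongr
    _ = 1 / ρ * (((Nat.sqrt n + 1 : ℕ) : ℝ) ^ (2 * K) * ρ ^ (Nat.sqrt n + 1)) := by
        rw [← pow_mul, pow_succ ρ]
        field_simp

section
variable {μ : ℕ → ℝ≥0∞}

theorem law_bad' (hsum : ∑' k, μ k = 1) (s : PT) (hs : prob μ s ≠ 0) :
    ∃ ρ : ℝ, 0 < ρ ∧ ρ < 1 ∧ ∀ m : ℕ, law μ (Bad μ s m) ≤ ENNReal.ofReal (ρ ^ m) := by
  obtain ⟨ρ, h0, h1, h2⟩ := law_bad hsum s hs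
  refine ⟨(ρ + 1) / 2, by linarith, by linarith, fun m => le_trans (h2 m) ?_⟩
  refine ENNReal.ofReal_le_ofReal ?_
  have : ρ ≤ (ρ + 1) / 2 := by linarith
  gcongr

theorem main_limit (hsum : ∑' k, μ k = 1) (hmean : ∑' k : ℕ, (k : ℝ≥0∞) * μ k = 1)
    (h0 : μ 0 ≠ 0) (α c : ℝ) (hα : 1 < α) (hα2 : α < 2) (hc : 0 < c)
    (htail : Tendsto (fun k : ℕ => tl μ k * (k : ℝ) ^ α) atTop (𝓝 c)) (K : ℕ) (C : ℝ)
    (ε : ℝ≥0∞) (hε : 0 < ε) :
    ∀ᶠ n : ℕ in atTop, ((n : ℝ≥0∞) ^ K)⁻¹ ≤ law μ {t | size t = n} →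
      ((condLaw μ n).prod (condLaw μ n))
        {p : PT × PT | (lcs p.1 p.2 : ℝ) < C * (min (maxDeg p.1) (maxDeg p.2) : ℕ)} ≤ ε := by
  rcases lt_or_ge C 0 with hC | hC
  · refine Eventually.of_forall fun n _ => ?_
    have : {p : PT × PT | (lcs p.1 p.2 : ℝ) < C * (min (maxDeg p.1) (maxDeg p.2) : ℕ)} = ∅ := by
      ext p
      simp only [Set.mem_ofPred_eq, Set.mem_empty_iff_false, iff_false, not_lt]
      have h1 : C * ((min (maxDeg p.1) (maxDeg p.2) : ℕ) : ℝ) ≤ 0 :=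
        mul_nonpos_of_nonpos_of_nonneg hC.le (Nat.cast_nonneg _)
      exact le_trans h1 (Nat.cast_nonneg _)
    rw [this, measure_empty]
    exact zero_le
  obtain ⟨S, hS1, hS2⟩ := exists_finset hsum hmean h0 (4 * C)
  obtain ⟨κ, hκ, m₀, hm₀, hsm⟩ := small_bound hsum hmean α c hα hα2 hc htail
  have hρex : ∀ s : PT, ∃ ρ : ℝ, 0 < ρ ∧ ρ < 1 ∧ (s ∈ S → ∀ m : ℕ, law μ (Bad μ s m)
      ≤ ENNReal.ofReal (ρ ^ m)) := by
    intro s
    by_cases hs : s ∈ S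
    · obtain ⟨ρ, a, b, d⟩ := law_bad' hsum s (hS1 s hs)
      exact ⟨ρ, a, b, fun _ => d⟩
    · exact ⟨1 / 2, by norm_num, by norm_num, fun h => absurd h hs⟩
  choose ρ hρ0 hρ1 hρ using hρex
  have herr : Tendsto (fun n : ℕ => 2 * (ENNReal.ofReal ((n : ℝ) ^ K
        * Real.exp (1 - κ * n * ((Nat.sqrt n : ℕ) : ℝ) ^ (-α)))
      + ∑ s ∈ S, ENNReal.ofReal ((n : ℝ) ^ (K + 1) * ρ s ^ (Nat.sqrt n)))) atTop (𝓝 0) := by
    have h1 : Tendsto (fun n : ℕ => ENNReal.ofReal ((n : ℝ) ^ K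
        * Real.exp (1 - κ * n * ((Nat.sqrt n : ℕ) : ℝ) ^ (-α)))) atTop (𝓝 0) := by
      have := ENNReal.tendsto_ofReal (lim_exp K κ α hκ (by linarith) hα2)
      rwa [ENNReal.ofReal_zero] at this
    have h2 : Tendsto (fun n : ℕ => ∑ s ∈ S,
        ENNReal.ofReal ((n : ℝ) ^ (K + 1) * ρ s ^ (Nat.sqrt n))) atTop (𝓝 0) := by
      have : Tendsto (fun n : ℕ => ∑ s ∈ S,
        ENNReal.ofReal ((n : ℝ) ^ (K + 1) * ρ s ^ (Nat.sqrt n))) atTop (𝓝 (∑ s ∈ S, 0)) := by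
        refine tendsto_finsetSum _ fun s _ => ?_
        have := ENNReal.tendsto_ofReal (lim_pow (K + 1) (ρ s) (hρ0 s) (hρ1 s))
        rwa [ENNReal.ofReal_zero] at this
      simpa using this
    have h3 := ENNReal.Tendsto.const_mul (a := 2) (h1.add h2) (Or.inr (by simp))
    simpa using h3
  have hev := herr.eventually (gt_mem_nhds hε)
  filter_upwards [hev, eventually_ge_atTop (m₀ * m₀)] with n hn hnm hp
  have hm : m₀ ≤ Nat.sqrt n := Nat.le_sqrt.2 hnm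
  have hn1 : 1 ≤ n := le_trans (by nlinarith) hnm
  have hn0 : (n : ℝ≥0∞) ≠ 0 := by exact_mod_cast (by omega : n ≠ 0)
  have hpow0 : (n : ℝ≥0∞) ^ K ≠ 0 := pow_ne_zero _ hn0
  have hpowt : (n : ℝ≥0∞) ^ K ≠ ∞ := ENNReal.pow_ne_top (ENNReal.natCast_ne_top n)
  have hpn : law μ {t | size t = n} ≠ 0 := by
    intro h
    rw [h] at hp
    have : ((n : ℝ≥0∞) ^ K)⁻¹ = 0 := le_antisymm hp zero_le
    rw [ENNReal.inv_eq_zero] at this
    exact hpowt this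
  have hinv : (law μ {t | size t = n})⁻¹ ≤ (n : ℝ≥0∞) ^ K := by
    rw [ENNReal.inv_le_iff_inv_le]
    exact hp
  refine le_trans (pair_bound hsum hmean h0 S C hC hS2 (Nat.sqrt n) n hpn) (le_trans ?_ hn.le)
  have hcast : ∀ (j : ℕ) (x : ℝ), (n : ℝ≥0∞) ^ j * ENNReal.ofReal x
      = ENNReal.ofReal ((n : ℝ) ^ j * x) := by
    intro j x
    rw [ENNReal.ofReal_mul (by positivity), ENNReal.ofReal_pow (Nat.cast_nonneg _),
      ENNReal.ofReal_natCast]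
  gcongr 2 * ?_
  calc (law μ {t | size t = n})⁻¹ * (law μ {t | size t = n ∧ Small (Nat.sqrt n) t}
        + ∑ s ∈ S, n * law μ (Bad μ s (Nat.sqrt n)))
      ≤ (n : ℝ≥0∞) ^ K * (ENNReal.ofReal (Real.exp (1 - κ * n * ((Nat.sqrt n : ℕ) : ℝ) ^ (-α)))
        + ∑ s ∈ S, n * ENNReal.ofReal (ρ s ^ (Nat.sqrt n))) := by
        gcongr with s hs
        · exact hsm _ hm n
        · exact hρ s hs _
    _ = _ := by
        rw [mul_add, hcast, Finset.mul_sum]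
        congr 1
        refine Finset.sum_congr rfl fun s _ => ?_
        rw [← mul_assoc, ← pow_succ, hcast]

theorem not_tight (hsum : ∑' k, μ k = 1) (hmean : ∑' k : ℕ, (k : ℝ≥0∞) * μ k = 1)
    (h0 : μ 0 ≠ 0) (α c : ℝ) (hα : 1 < α) (hα2 : α < 2) (hc : 0 < c)
    (htail : Tendsto (fun k : ℕ => tl μ k * (k : ℝ) ^ α) atTop (𝓝 c)) :
    ¬ ∀ ε : ℝ≥0∞, 0 < ε → ∃ C : ℝ, ∀ n : ℕ, 2 ≤ n → law μ {t | size t = n} ≠ 0 →
      ((condLaw μ n).prod (condLaw μ n))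
        {p : PT × PT | C * (min (maxDeg p.1) (maxDeg p.2) : ℕ) < (lcs p.1 p.2 : ℝ)} ≤ ε := by
  intro hcon
  obtain ⟨C₀, hC₀⟩ := hcon 2⁻¹ (by simp)
  have hev := main_limit hsum hmean h0 α c hα hα2 hc htail 3 (|C₀| + 1) 4⁻¹ (by simp)
  have hfr := frequently_good hsum hmean h0
  obtain ⟨n, hn1, hn2, hn3⟩ := (hfr.and_eventually (hev.and (eventually_ge_atTop 2))).exists
  have hpow : (n : ℝ≥0∞) ^ 3 ≠ ∞ := ENNReal.pow_ne_top (ENNReal.natCast_ne_top n)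
  have hpn : law μ {t | size t = n} ≠ 0 := by
    intro h
    rw [h] at hn1
    have : ((n : ℝ≥0∞) ^ 3)⁻¹ = 0 := le_antisymm hn1 zero_le
    rw [ENNReal.inv_eq_zero] at this
    exact hpow this
  have := law_prob hsum hmean h0
  have : IsProbabilityMeasure (condLaw μ n) := ProbabilityTheory.cond_isProbabilityMeasure hpn
  have h1 := hC₀ n hn3 hpn
  have h2 := hn2 hn1
  set P := (condLaw μ n).prod (condLaw μ n) with hP
  have hcov : (Set.univ : Set (PT × PT)) ⊆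
      {p : PT × PT | C₀ * (min (maxDeg p.1) (maxDeg p.2) : ℕ) < (lcs p.1 p.2 : ℝ)} ∪
      {p : PT × PT | (lcs p.1 p.2 : ℝ) < (|C₀| + 1) * (min (maxDeg p.1) (maxDeg p.2) : ℕ)} := by
    intro p _
    by_cases hp : C₀ * (min (maxDeg p.1) (maxDeg p.2) : ℕ) < (lcs p.1 p.2 : ℝ)
    · exact Or.inl hp
    · right
      rw [not_lt] at hp
      have hl : 1 ≤ lcs p.1 p.2 := by
        have := lcs_lower p.1 p.2 p.1 p.2 [] [] rfl rfl ∅ (fun _ => 0) (by simp) (by simp)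
        simpa using this
      have hl' : (1 : ℝ) ≤ lcs p.1 p.2 := by exact_mod_cast hl
      set M : ℝ := ((min (maxDeg p.1) (maxDeg p.2) : ℕ) : ℝ) with hM
      have hM0 : 0 ≤ M := Nat.cast_nonneg _
      have hMpos : 0 < M := by
        rcases hM0.lt_or_eq with h | h
        · exact h
        · rw [← h] at hp; linarith
      have h3 : C₀ ≤ |C₀| := le_abs_self _
      change (lcs p.1 p.2 : ℝ) < (|C₀| + 1) * M
      nlinarith
  have h4 : (1 : ℝ≥0∞) ≤ 2⁻¹ + 4⁻¹ := by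
    calc (1 : ℝ≥0∞) = P Set.univ := measure_univ.symm
      _ ≤ _ := measure_mono hcov
      _ ≤ _ := measure_union_le _ _
      _ ≤ _ := add_le_add h1 h2
  have h5 : (2⁻¹ : ℝ≥0∞) + 4⁻¹ < 1 := by
    have e : (2⁻¹ : ℝ≥0∞) + 4⁻¹ = ENNReal.ofReal (3 / 4) := by
      have e1 : (2⁻¹ : ℝ≥0∞) = ENNReal.ofReal (1 / 2) := by
        rw [one_div, ENNReal.ofReal_inv_of_pos (by norm_num)]; simp
      have e2 : (4⁻¹ : ℝ≥0∞) = ENNReal.ofReal (1 / 4) := by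
        rw [one_div, ENNReal.ofReal_inv_of_pos (by norm_num)]; simp
      rw [e1, e2, ← ENNReal.ofReal_add (by norm_num) (by norm_num)]
      norm_num
    rw [e]
    exact ENNReal.ofReal_lt_one.2 (by norm_num)
  exact absurd h4 (not_le.2 h5)

end

end PT

end Pool.Agent.R974.LC
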