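import Pool.Agent.R974.LC.Mass
set_option autoImplicit false

namespace Pool.Agent.R974.LC

open MeasureTheory
open scoped ENNReal

namespace PT

theorem subtree_append (t : PT) (v p : List ℕ) :
    subtree t (v ++ p) = (subtree t v).bind fun b => subtree b p := by
  induction v generalizing t with
  | nil => simp [subtree]
  | cons i v ih =>
    simp only [List.cons_append, subtree]
    cases h : child t i with
    | none => simp
    | some c => simp [ih c]

/-- The set of the vertices. -/
def vset (t : PT) : Set (List ℕ) := {p | (subtree t p).isSome}

theorem vset_leaf : vset leaf = {[]} := by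
  ext p
  cases p with
  | nil => simp [vset, subtree]
  | cons i p => simp [vset, subtree, child]

/-- Increase the first letter of a word. -/
def shift : List ℕ → List ℕ
  | [] => []
  | i :: p => (i + 1) :: p

theorem shift_inj : Function.Injective shift := by
  intro p q h
  cases p <;> cases q <;> simp_all [shift]

theorem vset_graft (c s : PT) : vset (graft c s) = (List.cons 0 '' vset c) ∪ (shift '' vset s) := by
  ext p
  constructor
  · intro h
    cases p with
    | nil => exact Or.inr ⟨[], by simp [vset, subtree], rfl⟩
    | cons i p =>
      cases i with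
      | zero =>
        left
        exact ⟨p, by simpa [vset, subtree, child] using h, rfl⟩
      | succ i =>
        right
        exact ⟨i :: p, by simpa [vset, subtree, child] using h, rfl⟩
  · rintro (⟨q, hq, rfl⟩ | ⟨q, hq, rfl⟩)
    · simpa [vset, subtree, child] using hq
    · cases q with
      | nil => simp [vset, subtree, shift]
      | cons i q => simpa [vset, subtree, child, shift] using hq

theorem vset_card (t : PT) : (vset t).Finite ∧ (vset t).ncard = size t := by
  induction t with
  | leaf => rw [vset_leaf]; exact ⟨Set.finite_singleton _, by simp [size]⟩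
  | graft c s hc hs =>
    rw [vset_graft]
    have h1 : (List.cons 0 '' vset c).Finite := hc.1.image _
    have h2 : (shift '' vset s).Finite := hs.1.image _
    refine ⟨h1.union h2, ?_⟩
    rw [Set.ncard_union_eq _ h1 h2, Set.ncard_image_of_injective _ (List.cons_injective),
      Set.ncard_image_of_injective _ shift_inj, hc.2, hs.2, size]
    rw [Set.disjoint_left]
    rintro _ ⟨p, _, rfl⟩ ⟨q, _, hq⟩
    cases q <;> simp [shift] at hq

instance (t : PT) : Finite (Vert t) := (vset_card t).1.to_subtype

theorem card_vert (t : PT) : Nat.card (Vert t) = size t := (vset_card t).2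

/-- The root. -/
def root (t : PT) : Vert t := ⟨[], by simp [subtree]⟩

theorem connected (t : PT) : (graph t).Connected := by
  rw [SimpleGraph.connected_iff_exists_forall_reachable]
  refine ⟨root t, ?_⟩
  have key : ∀ (p : List ℕ) (hp : (subtree t p).isSome), (graph t).Reachable (root t) ⟨p, hp⟩ := by
    intro p
    induction p using List.reverseRecOn with
    | nil => intro hp; exact SimpleGraph.Reachable.refl _
    | append_singleton p i ih =>
      intro hp
      have hp' : (subtree t p).isSome := by
        rw [subtree_append] at hp
        cases h : subtree t p with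
        | none => rw [h] at hp; simp at hp
        | some b => rfl
      refine (ih hp').trans (SimpleGraph.Adj.reachable ?_)
      exact Or.inl ⟨i, rfl⟩
  intro w
  exact key w.1 w.2

theorem copy_subtree (t : PT) (v : List ℕ) (b : PT) (h : subtree t v = some b) :
    (graph b).IsContained (graph t) := by
  have hv : ∀ p : List ℕ, subtree t (v ++ p) = subtree b p := by
    intro p; rw [subtree_append, h]; rfl
  refine ⟨⟨⟨fun p => ⟨v ++ p.1, by rw [hv]; exact p.2⟩, ?_⟩, ?_⟩⟩
  · intro p q hpq
    rcases hpq with ⟨i, hi⟩ | ⟨i, hi⟩
    · exact Or.inl ⟨i, by simp [hi]⟩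
    · exact Or.inr ⟨i, by simp [hi]⟩
  · intro p q hpq
    have this : v ++ p.1 = v ++ q.1 := congrArg Subtype.val hpq
    exact Subtype.ext (List.append_cancel_left this)

theorem child_card (s t : PT) :
    {i | child t i = some s}.Finite ∧ {i | child t i = some s}.ncard = cnt s t := by
  induction t with
  | leaf => simp [child, cnt]
  | graft c r hc hr =>
    have h : {i | child (graft c r) i = some s}
        = (if c = s then {0} else ∅) ∪ (Nat.succ '' {i | child r i = some s}) := by
      ext i
      cases i with
      | zero =>
        by_cases hcs : c = s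
        · simp [child, hcs]
        · simp [child, hcs]
      | succ i =>
        by_cases hcs : c = s
        · simp [child, hcs]
        · simp [child, hcs]
    have h1 : (if c = s then ({0} : Set ℕ) else ∅).Finite := by split_ifs <;> simp
    have h2 : (Nat.succ '' {i | child r i = some s}).Finite := hr.1.image _
    rw [h]
    refine ⟨h1.union h2, ?_⟩
    rw [Set.ncard_union_eq _ h1 h2, Set.ncard_image_of_injective _ Nat.succ_injective, hr.2, cnt]
    · split_ifs <;> simp
    · rw [Set.disjoint_left]
      rintro a ha ⟨b, _, rfl⟩
      split_ifs at ha <;> simp at ha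

theorem copy_of_cnt (u b : PT) (h : ∀ s, cnt s u ≤ cnt s b) :
    (graph u).IsContained (graph b) := by
  have hex : ∀ s : PT, ∃ f : ℕ → ℕ, {i | child u i = some s} ⊆ f ⁻¹' {i | child b i = some s} ∧
      Set.InjOn f {i | child u i = some s} := by
    intro s
    refine Set.Finite.exists_injOn_of_encard_le (child_card s u).1 ?_
    rw [← (child_card s u).1.cast_ncard_eq, ← (child_card s b).1.cast_ncard_eq,
      (child_card s u).2, (child_card s b).2]
    exact_mod_cast h s
  choose e he hinj using hex
  let ι : ℕ → ℕ := fun i => match child u i with
    | some s => e s i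
    | none => 0
  have hι : ∀ i s, child u i = some s → ι i = e s i := by
    intro i s hs
    simp only [ι, hs]
  have hc : ∀ i s, child u i = some s → child b (ι i) = some s := by
    intro i s hs
    rw [hι i s hs]
    exact he s hs
  let F : List ℕ → List ℕ := fun p => match p with
    | [] => []
    | i :: p => ι i :: p
  have hF0 : F [] = [] := rfl
  have hF1 : ∀ i p, F (i :: p) = ι i :: p := fun _ _ => rfl
  have hV : ∀ p, (subtree u p).isSome → (subtree b (F p)).isSome := by
    intro p hp
    cases p with
    | nil => simp [hF0, subtree]
    | cons i p =>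
      rw [hF1]
      simp only [subtree] at hp ⊢
      cases hs : child u i with
      | none => rw [hs] at hp; simp at hp
      | some s =>
        rw [hs] at hp
        rw [hc i s hs]
        exact hp
  have hFa : ∀ p i, F (p ++ [i]) = F p ++ [i] ∨ p = [] := by
    intro p i
    cases p with
    | nil => exact Or.inr rfl
    | cons j p => exact Or.inl rfl
  refine ⟨⟨⟨fun p => ⟨F p.1, hV p.1 p.2⟩, ?_⟩, ?_⟩⟩
  · intro p q hpq
    rcases hpq with ⟨i, hi⟩ | ⟨i, hi⟩
    · left
      rcases hFa p.1 i with h1 | h1
      · exact ⟨i, by simp only [hi, h1]⟩
      · refine ⟨ι i, ?_⟩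
        simp only [hi, h1, List.nil_append, hF1, hF0]
    · right
      rcases hFa q.1 i with h1 | h1
      · exact ⟨i, by simp only [hi, h1]⟩
      · refine ⟨ι i, ?_⟩
        simp only [hi, h1, List.nil_append, hF1, hF0]
  · intro p q hpq
    have h1 : F p.1 = F q.1 := congrArg Subtype.val hpq
    refine Subtype.ext ?_
    rcases p with ⟨p, hp⟩
    rcases q with ⟨q, hq⟩
    cases p with
    | nil =>
      cases q with
      | nil => rfl
      | cons j q => simp [hF0, hF1] at h1
    | cons i p =>
      cases q with
      | nil => simp [hF0, hF1] at h1
      | cons j q =>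
        simp only [hF1, List.cons.injEq] at h1
        obtain ⟨h2, h3⟩ := h1
        simp only [subtree] at hp hq
        cases hs : child u i with
        | none => rw [hs] at hp; simp at hp
        | some s =>
          cases hs' : child u j with
          | none => rw [hs'] at hq; simp at hq
          | some s' =>
            have e1 := hc i s hs
            have e2 := hc j s' hs'
            rw [h2, e2] at e1
            have e3 : s' = s := by simpa using e1
            subst e3
            rw [hι i s' hs, hι j s' hs'] at h2
            have e4 := hinj s' hs hs' h2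
            simp [e4, h3]

theorem lcs_ge (u t t' : PT) (h : (graph u).IsContained (graph t))
    (h' : (graph u).IsContained (graph t')) : size u ≤ lcs t t' := by
  refine le_csSup ?_ ?_
  · refine ⟨size t, ?_⟩
    rintro k ⟨G, _, ⟨f⟩, _⟩
    rw [← card_vert t]
    have := Nat.card_le_card_of_injective _ f.injective
    simpa using this
  · have hcard : Nat.card (Vert u) = size u := card_vert u
    have : Fintype (Vert u) := Fintype.ofFinite _
    have e : Fin (size u) ≃ Vert u := by
      refine (Fintype.equivFinOfCardEq ?_).symm
      rw [← hcard, Nat.card_eq_fintype_card]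
    have i := SimpleGraph.Iso.comap e (graph u)
    refine ⟨(graph u).comap e, i.connected_iff.2 (connected u), ?_, ?_⟩
    · exact SimpleGraph.IsContained.trans ⟨i.toCopy⟩ h
    · exact SimpleGraph.IsContained.trans ⟨i.toCopy⟩ h'

/-- Add `n` copies of `s` as subtrees of the root. -/
def addCopies (s : PT) : ℕ → PT → PT
  | 0, r => r
  | n + 1, r => graft s (addCopies s n r)

theorem size_addCopies (s : PT) (n : ℕ) (r : PT) :
    size (addCopies s n r) = n * size s + size r := by
  induction n with
  | zero => simp [addCopies]
  | succ n ih => simp only [addCopies, size, ih]; ring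

theorem cnt_addCopies (s s' : PT) (n : ℕ) (r : PT) :
    cnt s' (addCopies s n r) = (if s = s' then n else 0) + cnt s' r := by
  induction n with
  | zero => simp [addCopies]
  | succ n ih =>
    simp only [addCopies, cnt, ih]
    split_ifs <;> omega

theorem exists_tree (S : Finset PT) (n : PT → ℕ) :
    ∃ u : PT, size u = 1 + ∑ s ∈ S, n s * size s ∧ ∀ s, cnt s u = if s ∈ S then n s else 0 := by
  classical
  induction S using Finset.induction_on with
  | empty => exact ⟨leaf, by simp [size], by simp [cnt]⟩
  | insert a S ha ih =>
    obtain ⟨u, hu, hc⟩ := ih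
    refine ⟨addCopies a (n a) u, ?_, fun s => ?_⟩
    · rw [size_addCopies, hu, Finset.sum_insert ha]; ring
    · rw [cnt_addCopies, hc]
      by_cases h : a = s
      · subst h
        simp [ha]
      · have h' : ¬ s = a := fun e => h e.symm
        simp [h, h']

theorem lcs_lower (t t' b b' : PT) (v v' : List ℕ) (hb : subtree t v = some b)
    (hb' : subtree t' v' = some b') (S : Finset PT) (n : PT → ℕ)
    (h : ∀ s ∈ S, n s ≤ cnt s b) (h' : ∀ s ∈ S, n s ≤ cnt s b') :
    1 + ∑ s ∈ S, n s * size s ≤ lcs t t' := by
  obtain ⟨u, hu, hc⟩ := exists_tree S n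
  rw [← hu]
  refine lcs_ge u t t' ?_ ?_
  · refine SimpleGraph.IsContained.trans (copy_of_cnt u b fun s => ?_) (copy_subtree t v b hb)
    rw [hc]
    split_ifs with hs
    · exact h s hs
    · exact Nat.zero_le _
  · refine SimpleGraph.IsContained.trans (copy_of_cnt u b' fun s => ?_) (copy_subtree t' v' b' hb')
    rw [hc]
    split_ifs with hs
    · exact h' s hs
    · exact Nat.zero_le _

theorem child_isSome (t : PT) (i : ℕ) : (child t i).isSome ↔ i < deg t := by
  induction t generalizing i with
  | leaf => simp [child, deg]
  | graft c s hc hs =>
    cases i with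
    | zero => simp [child, deg]
    | succ i => simp [child, deg, hs i]

theorem degree_le (t : PT) (p : Vert t) (b : PT) (hb : subtree t p.1 = some b) :
    ((graph t).neighborSet p).ncard ≤ deg b + 1 := by
  have h1 : Subtype.val '' (graph t).neighborSet p
      ⊆ ((fun i => p.1 ++ [i]) '' (Finset.range (deg b) : Set ℕ)) ∪ {p.1.dropLast} := by
    rintro _ ⟨q, hq, rfl⟩
    rcases hq with ⟨i, hi⟩ | ⟨i, hi⟩
    · left
      refine ⟨i, ?_, hi.symm⟩
      have h2 := q.2
      rw [hi, subtree_append, hb] at h2
      simp only [Option.bind_some, subtree] at h2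
      have h3 : (child b i).isSome := by
        cases hc : child b i with
        | none => rw [hc] at h2; simp at h2
        | some c => rfl
      rw [child_isSome] at h3
      simpa using h3
    · right
      simp [hi]
  have hinj : Function.Injective (Subtype.val : Vert t → List ℕ) := Subtype.val_injective
  rw [← Set.ncard_image_of_injective ((graph t).neighborSet p) hinj]
  have hfin : (((fun i => p.1 ++ [i]) '' (Finset.range (deg b) : Set ℕ)) ∪ {p.1.dropLast}).Finite :=
    ((Finset.finite_toSet _).image _).union (Set.finite_singleton _)
  refine le_trans (Set.ncard_le_ncard h1 hfin) ?_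
  refine le_trans (Set.ncard_union_le _ _) ?_
  rw [Set.ncard_singleton]
  have := Set.ncard_image_le (f := fun i => p.1 ++ [i]) (Finset.finite_toSet (Finset.range (deg b)))
  rw [Set.ncard_coe_finset, Finset.card_range] at this
  omega

theorem exists_hub (t : PT) : ∃ v b, subtree t v = some b ∧ maxDeg t ≤ deg b + 1 ∧
    ∀ p b', subtree t p = some b' → deg b' ≤ deg b := by
  have : Nonempty (Vert t) := ⟨root t⟩
  obtain ⟨v, hv⟩ := Finite.exists_max (fun p : Vert t => deg ((subtree t p.1).get p.2))
  have hs : ∀ p : Vert t, subtree t p.1 = some ((subtree t p.1).get p.2) := fun p => by simp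
  refine ⟨v.1, (subtree t v.1).get v.2, hs v, ?_, ?_⟩
  · refine ciSup_le fun p => ?_
    exact le_trans (degree_le t p _ (hs p)) (Nat.succ_le_succ (hv p))
  · intro p b' hp
    have := hv ⟨p, by rw [hp]; rfl⟩
    simpa [hp] using this

end PT

end Pool.Agent.R974.LC
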