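import Pool.Agent.R974.LC.Tail
import Pool.Agent.R974.LC.Graph
set_option autoImplicit false

namespace Pool.Agent.R974.LC

open MeasureTheory Filter Topology
open scoped ENNReal

namespace PT

section
variable {μ : ℕ → ℝ≥0∞}

theorem law_univ (μ : ℕ → ℝ≥0∞) : law μ Set.univ = ∑' t : PT, prob μ t := by
  rw [law_apply]; simp

theorem mean_size' (μ : ℕ → ℝ≥0∞) :
    ∑' t : PT, prob μ t * size t = ∑' n : ℕ, (n : ℝ≥0∞) * law μ {t | size t = n} := by
  have h : ∀ t : PT, prob μ t * size t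
      = ∑' n : ℕ, (n : ℝ≥0∞) * ({t | size t = n} : Set PT).indicator (prob μ) t := by
    intro t
    rw [tsum_eq_single (size t)]
    · simp [mul_comm]
    · intro n hn
      rw [Set.indicator_of_notMem (by simpa using hn.symm), mul_zero]
  rw [tsum_congr h, ENNReal.tsum_comm]
  refine tsum_congr fun n => ?_
  rw [ENNReal.tsum_mul_left, law_apply]

theorem frequently_good (hsum : ∑' k, μ k = 1) (hmean : ∑' k : ℕ, (k : ℝ≥0∞) * μ k = 1)
    (h0 : μ 0 ≠ 0) :
    ∃ᶠ n : ℕ in atTop, ((n : ℝ≥0∞) ^ 3)⁻¹ ≤ law μ {t | size t = n} := by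
  by_contra hcon
  rw [not_frequently] at hcon
  obtain ⟨N, hN⟩ := eventually_atTop.1 hcon
  have htop := mean_size hsum hmean h0
  rw [mean_size'] at htop
  have hp1 : ∀ n : ℕ, law μ {t | size t = n} ≤ 1 := fun n =>
    le_trans (measure_mono (Set.subset_univ _)) (by rw [law_univ]; exact total_le_one hsum)
  have hb : ∀ n : ℕ, (n : ℝ≥0∞) * law μ {t | size t = n}
      ≤ (if n < N + 1 then (n : ℝ≥0∞) else 0) + ENNReal.ofReal (1 / (n : ℝ) ^ 2) := by
    intro n
    by_cases hn : n < N + 1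
    · rw [if_pos hn]
      refine le_trans ?_ le_self_add
      calc (n : ℝ≥0∞) * law μ {t | size t = n} ≤ n * 1 := by gcongr; exact hp1 n
        _ = n := mul_one _
    · rw [if_neg hn, zero_add]
      have hn1 : 1 ≤ n := by omega
      have hnr : (0 : ℝ) < n := by exact_mod_cast hn1
      have h1 := (hN n (by omega))
      rw [not_le] at h1
      have h2 : ENNReal.ofReal (1 / (n : ℝ) ^ 2) = ((n : ℝ≥0∞) ^ 2)⁻¹ := by
        rw [one_div, ENNReal.ofReal_inv_of_pos (by positivity), ENNReal.ofReal_pow hnr.le,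
          ENNReal.ofReal_natCast]
      rw [h2]
      have hn0 : (n : ℝ≥0∞) ≠ 0 := by exact_mod_cast (by omega : n ≠ 0)
      have hnt : (n : ℝ≥0∞) ≠ ∞ := ENNReal.natCast_ne_top n
      calc (n : ℝ≥0∞) * law μ {t | size t = n} ≤ n * ((n : ℝ≥0∞) ^ 3)⁻¹ := by gcongr
        _ = ((n : ℝ≥0∞) ^ 2)⁻¹ := by
            rw [pow_succ' (n : ℝ≥0∞) 2, ENNReal.mul_inv (Or.inl hn0) (Or.inl hnt), ← mul_assoc,
              ENNReal.mul_inv_cancel hn0 hnt, one_mul]
  have hfin : ∑' n : ℕ, ((if n < N + 1 then (n : ℝ≥0∞) else 0)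
      + ENNReal.ofReal (1 / (n : ℝ) ^ 2)) ≠ ∞ := by
    rw [ENNReal.tsum_add]
    refine ENNReal.add_ne_top.2 ⟨?_, ?_⟩
    · rw [tsum_eq_sum (s := Finset.range (N + 1))]
      · refine ENNReal.sum_ne_top.2 fun n _ => ?_
        split_ifs
        · exact ENNReal.natCast_ne_top n
        · simp
      · intro n hn
        rw [if_neg (by simpa using hn)]
    · rw [← ENNReal.ofReal_tsum_of_nonneg (fun n => by positivity)
        (Real.summable_one_div_nat_pow.2 (by norm_num))]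
      exact ENNReal.ofReal_ne_top
  exact hfin (top_unique (htop ▸ ENNReal.tsum_le_tsum hb))

/-- A finite set of trees that carries a large part of the mean size. -/
theorem exists_finset (hsum : ∑' k, μ k = 1) (hmean : ∑' k : ℕ, (k : ℝ≥0∞) * μ k = 1)
    (h0 : μ 0 ≠ 0) (K : ℝ) :
    ∃ S : Finset PT, (∀ s ∈ S, prob μ s ≠ 0) ∧ K ≤ ∑ s ∈ S, (prob μ s).toReal * size s := by
  classical
  have htop := mean_size hsum hmean h0
  rw [ENNReal.tsum_eq_iSup_sum] at htop
  obtain ⟨S, hS⟩ := (lt_iSup_iff (a := ENNReal.ofReal K)).1 (by rw [htop]; simp)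
  refine ⟨S.filter fun s => prob μ s ≠ 0, fun s hs => (Finset.mem_filter.1 hs).2, ?_⟩
  have hpt : ∀ s, prob μ s ≠ ∞ := fun s => ne_top_of_le_ne_top ENNReal.one_ne_top
    (le_trans (ENNReal.le_tsum s) (total_le_one hsum))
  have h1 : ∑ s ∈ S, prob μ s * size s = ∑ s ∈ S.filter (fun s => prob μ s ≠ 0),
      prob μ s * size s := by
    rw [Finset.sum_filter]
    refine Finset.sum_congr rfl fun s _ => ?_
    by_cases h : prob μ s = 0
    · simp [h]
    · simp [h]
  rw [h1] at hS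
  have h2 := hS.le
  have h3 : ∑ s ∈ S.filter (fun s => prob μ s ≠ 0), prob μ s * size s
      = ENNReal.ofReal (∑ s ∈ S.filter (fun s => prob μ s ≠ 0), (prob μ s).toReal * size s) := by
    rw [ENNReal.ofReal_sum_of_nonneg (fun s _ => by positivity)]
    refine Finset.sum_congr rfl fun s _ => ?_
    rw [ENNReal.ofReal_mul ENNReal.toReal_nonneg, ENNReal.ofReal_toReal (hpt s),
      ENNReal.ofReal_natCast]
  rw [h3] at h2
  exact (ENNReal.ofReal_le_ofReal_iff (Finset.sum_nonneg fun s _ => by positivity)).1 h2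

/-- The good trees. -/
def Good (μ : ℕ → ℝ≥0∞) (S : Finset PT) (m : ℕ) : Set PT :=
  {t | ¬ Small m t ∧ ∀ s ∈ S, ∀ p b, subtree t p = some b → b ∉ Bad μ s m}

theorem lcs_of_good (S : Finset PT) (C : ℝ) (hC0 : 0 ≤ C)
    (hC : 4 * C ≤ ∑ s ∈ S, (prob μ s).toReal * size s) (m : ℕ) (t t' : PT)
    (ht : t ∈ Good μ S m) (ht' : t' ∈ Good μ S m) :
    C * (min (maxDeg t) (maxDeg t') : ℕ) ≤ lcs t t' := by
  obtain ⟨v, b, hv, hd, hmax⟩ := exists_hub t
  obtain ⟨v', b', hv', hd', hmax'⟩ := exists_hub t'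
  have hb : m < deg b := by
    by_contra hcon
    refine ht.1 fun p c hp => le_trans (hmax p c hp) (by omega)
  have hb' : m < deg b' := by
    by_contra hcon
    refine ht'.1 fun p c hp => le_trans (hmax' p c hp) (by omega)
  have hcnt : ∀ s ∈ S, (prob μ s).toReal * deg b ≤ 2 * cnt s b := by
    intro s hs
    have := ht.2 s hs v b hv
    by_contra hcon
    exact this ⟨hb.le, not_le.1 hcon⟩
  have hcnt' : ∀ s ∈ S, (prob μ s).toReal * deg b' ≤ 2 * cnt s b' := by
    intro s hs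
    have := ht'.2 s hs v' b' hv'
    by_contra hcon
    exact this ⟨hb'.le, not_le.1 hcon⟩
  set d : ℕ := min (deg b) (deg b') with hdd
  have hd1 : 1 ≤ d := by omega
  have hdb : (d : ℝ) ≤ deg b := by exact_mod_cast min_le_left _ _
  have hdb' : (d : ℝ) ≤ deg b' := by exact_mod_cast min_le_right _ _
  have hl := lcs_lower t t' b b' v v' hv hv' S (fun s => ⌈(prob μ s).toReal * d / 2⌉₊)
    (fun s hs => by
      refine Nat.ceil_le.2 ?_
      have := hcnt s hs
      have h2 : (prob μ s).toReal * d ≤ (prob μ s).toReal * deg b := by gcongr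
      linarith)
    (fun s hs => by
      refine Nat.ceil_le.2 ?_
      have := hcnt' s hs
      have h2 : (prob μ s).toReal * d ≤ (prob μ s).toReal * deg b' := by gcongr
      linarith)
  have h1 : (d : ℝ) / 2 * (∑ s ∈ S, (prob μ s).toReal * size s) ≤ lcs t t' := by
    have h2 : ((1 + ∑ s ∈ S, ⌈(prob μ s).toReal * d / 2⌉₊ * size s : ℕ) : ℝ) ≤ lcs t t' := by
      exact_mod_cast hl
    refine le_trans ?_ h2
    push_cast
    rw [Finset.mul_sum]
    have h3 : ∑ s ∈ S, (d : ℝ) / 2 * ((prob μ s).toReal * size s)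
        ≤ ∑ s ∈ S, (⌈(prob μ s).toReal * d / 2⌉₊ : ℝ) * size s := by
      refine Finset.sum_le_sum fun s _ => ?_
      have := Nat.le_ceil ((prob μ s).toReal * d / 2)
      calc (d : ℝ) / 2 * ((prob μ s).toReal * size s)
          = ((prob μ s).toReal * d / 2) * size s := by ring
        _ ≤ _ := by gcongr
    linarith
  have h4 : ((min (maxDeg t) (maxDeg t') : ℕ) : ℝ) ≤ 2 * d := by
    have : min (maxDeg t) (maxDeg t') ≤ 2 * d := by omega
    exact_mod_cast this
  have hdr : (0 : ℝ) ≤ d := by positivity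
  calc C * (min (maxDeg t) (maxDeg t') : ℕ) ≤ C * (2 * d) := by gcongr
    _ = (d : ℝ) / 2 * (4 * C) := by ring
    _ ≤ (d : ℝ) / 2 * (∑ s ∈ S, (prob μ s).toReal * size s) := by gcongr
    _ ≤ _ := h1

theorem law_not_good (hsum : ∑' k, μ k = 1) (hmean : ∑' k : ℕ, (k : ℝ≥0∞) * μ k = 1)
    (S : Finset PT) (m n : ℕ) :
    law μ ({t | size t = n} ∩ (Good μ S m)ᶜ)
      ≤ law μ {t | size t = n ∧ Small m t} + ∑ s ∈ S, n * law μ (Bad μ s m) := by
  have hsub : {t | size t = n} ∩ (Good μ S m)ᶜ ⊆ {t | size t = n ∧ Small m t} ∪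
      ⋃ s ∈ S, {t | size t = n ∧ ∃ p b, subtree t p = some b ∧ b ∈ Bad μ s m} := by
    rintro t ⟨hn, hg⟩
    by_cases hs : Small m t
    · exact Or.inl ⟨hn, hs⟩
    · right
      simp only [Good, Set.mem_compl_iff, Set.mem_ofPred_eq, not_and, not_forall] at hg
      obtain ⟨s, hs', p, b, hp, hb⟩ := hg hs
      simp only [Set.mem_iUnion]
      exact ⟨s, hs', hn, p, b, hp, not_not.1 hb⟩
  refine le_trans (measure_mono hsub) (le_trans (measure_union_le _ _) ?_)
  gcongr
  refine le_trans (measure_biUnion_finset_le _ _) ?_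
  exact Finset.sum_le_sum fun s _ => law_exists hsum hmean _ n

theorem law_prob (hsum : ∑' k, μ k = 1) (hmean : ∑' k : ℕ, (k : ℝ≥0∞) * μ k = 1)
    (h0 : μ 0 ≠ 0) : IsProbabilityMeasure (law μ) :=
  ⟨by rw [law_univ, total_eq_one hsum hmean h0]⟩

theorem pair_bound (hsum : ∑' k, μ k = 1) (hmean : ∑' k : ℕ, (k : ℝ≥0∞) * μ k = 1)
    (h0 : μ 0 ≠ 0) (S : Finset PT) (C : ℝ) (hC0 : 0 ≤ C)
    (hC : 4 * C ≤ ∑ s ∈ S, (prob μ s).toReal * size s) (m n : ℕ)
    (hn : law μ {t | size t = n} ≠ 0) :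
    ((condLaw μ n).prod (condLaw μ n))
        {p : PT × PT | (lcs p.1 p.2 : ℝ) < C * (min (maxDeg p.1) (maxDeg p.2) : ℕ)}
      ≤ 2 * ((law μ {t | size t = n})⁻¹ *
        (law μ {t | size t = n ∧ Small m t} + ∑ s ∈ S, n * law μ (Bad μ s m))) := by
  have := law_prob hsum hmean h0
  have : IsProbabilityMeasure (condLaw μ n) := ProbabilityTheory.cond_isProbabilityMeasure hn
  have hsub : {p : PT × PT | (lcs p.1 p.2 : ℝ) < C * (min (maxDeg p.1) (maxDeg p.2) : ℕ)}
      ⊆ ((Good μ S m)ᶜ ×ˢ Set.univ) ∪ (Set.univ ×ˢ (Good μ S m)ᶜ) := by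
    rintro ⟨t, t'⟩ hp
    by_contra hcon
    simp only [Set.mem_union, Set.mem_prod, Set.mem_compl_iff, Set.mem_univ, and_true,
      true_and, not_or, not_not] at hcon
    exact absurd (lcs_of_good S C hC0 hC m t t' hcon.1 hcon.2) (not_le.2 hp)
  have hbad : condLaw μ n (Good μ S m)ᶜ ≤ (law μ {t | size t = n})⁻¹ *
        (law μ {t | size t = n ∧ Small m t} + ∑ s ∈ S, n * law μ (Bad μ s m)) := by
    rw [condLaw, ProbabilityTheory.cond_apply (by trivial)]
    gcongr
    exact law_not_good hsum hmean S m n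
  refine le_trans (measure_mono hsub) (le_trans (measure_union_le _ _) ?_)
  rw [Measure.prod_prod, Measure.prod_prod, measure_univ, mul_one, one_mul, two_mul]
  gcongr

end

end PT

end Pool.Agent.R974.LC
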