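import Pool.Agent.R974.LC.Sum
set_option autoImplicit false

namespace Pool.Agent.R974.LC

open MeasureTheory
open scoped ENNReal

namespace PT

section
variable {μ : ℕ → ℝ≥0∞}

theorem law_apply (μ : ℕ → ℝ≥0∞) (S : Set PT) : law μ S = ∑' t, S.indicator (prob μ) t := by
  rw [law, Measure.sum_apply _ (by trivial)]
  refine tsum_congr fun t => ?_
  by_cases h : t ∈ S
  · simp [h]
  · simp [h]

theorem total_le_one (hsum : ∑' k, μ k = 1) : ∑' t : PT, prob μ t ≤ 1 := by
  refine total_le μ 1 ?_
  simp [hsum]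

theorem bern (r : ℝ) (h0 : 0 ≤ r) (h1 : r ≤ 1) (k : ℕ) :
    (1 - r) ^ 2 ≤ r ^ (k + 2) - 1 + (k + 2 : ℕ) * (1 - r) := by
  induction k with
  | zero => push_cast; nlinarith
  | succ k ih =>
    have h2 : r ^ (k + 2) ≤ 1 := pow_le_one₀ h0 h1
    have h3 : r ^ (k + 1 + 2) = r ^ (k + 2) * r := by ring
    push_cast at ih ⊢
    nlinarith

theorem hasSum_real (f : ℕ → ℝ≥0∞) (v : ℝ≥0∞) (hv : v ≠ ∞) (h : ∑' k, f k = v) :
    HasSum (fun k => (f k).toReal) v.toReal := by
  have h1 : ∑' k, f k ≠ ∞ := by rw [h]; exact hv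
  have h2 := ENNReal.hasSum_toReal (f := f) h1
  rwa [← ENNReal.tsum_toReal_eq (fun k => ENNReal.ne_top_of_tsum_ne_top h1 k), h] at h2

theorem total_eq_one (hsum : ∑' k, μ k = 1) (hmean : ∑' k : ℕ, (k : ℝ≥0∞) * μ k = 1)
    (h0 : μ 0 ≠ 0) : ∑' t : PT, prob μ t = 1 := by
  have hq1 := total_le_one hsum
  set q := ∑' t : PT, prob μ t with hq
  have hqt : q ≠ ∞ := ne_top_of_le_ne_top ENNReal.one_ne_top hq1
  have hfix : q = ∑' k, μ k * q ^ k := by
    conv_lhs => rw [hq]
    rw [tsum_congr (fun t => prob_eq μ t), sum_weight]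
  have hμt : ∀ k, μ k ≠ ∞ := fun k =>
    ne_top_of_le_ne_top ENNReal.one_ne_top (hsum ▸ ENNReal.le_tsum k)
  set r := q.toReal with hr
  have hr0 : 0 ≤ r := ENNReal.toReal_nonneg
  have hr1 : r ≤ 1 := by
    rw [hr]; exact ENNReal.toReal_le_of_le_ofReal (by norm_num) (by simpa using hq1)
  set m : ℕ → ℝ := fun k => (μ k).toReal with hm
  have hm0 : ∀ k, 0 ≤ m k := fun k => ENNReal.toReal_nonneg
  have hs1 : HasSum m 1 := by
    have := hasSum_real μ 1 ENNReal.one_ne_top hsum
    rwa [ENNReal.toReal_one] at this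
  have hs2 : HasSum (fun k : ℕ => (k : ℝ) * m k) 1 := by
    have := hasSum_real (fun k : ℕ => (k : ℝ≥0∞) * μ k) 1 ENNReal.one_ne_top hmean
    rw [ENNReal.toReal_one] at this
    simpa [ENNReal.toReal_mul] using this
  have hs3 : HasSum (fun k : ℕ => m k * r ^ k) r := by
    have := hasSum_real (fun k : ℕ => μ k * q ^ k) q hqt hfix.symm
    simpa [ENNReal.toReal_mul, ENNReal.toReal_pow] using this
  have hs4 : HasSum (fun k : ℕ => m k * r ^ k - m k + (1 - r) * ((k : ℝ) * m k)) 0 := by
    have := (hs3.sub hs1).add (hs2.mul_left (1 - r))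
    have e : (r - 1 + (1 - r) * 1 : ℝ) = 0 := by ring
    rw [e] at this
    exact this
  have hterm : ∀ k : ℕ, 0 ≤ m k * r ^ k - m k + (1 - r) * ((k : ℝ) * m k) := by
    intro k
    have : 0 ≤ r ^ k - 1 + k * (1 - r) := by
      rcases k with _ | _ | k
      · simp
      · simp
      · exact le_trans (sq_nonneg _) (bern r hr0 hr1 k)
    nlinarith [hm0 k, mul_nonneg (hm0 k) this]
  have hz : ∀ k : ℕ, m k * r ^ k - m k + (1 - r) * ((k : ℝ) * m k) = 0 := by
    have := (hasSum_zero_iff_of_nonneg hterm).1 hs4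
    intro k
    exact congrFun this k
  -- some k ≥ 2 has positive mass
  obtain ⟨k, hk⟩ : ∃ k : ℕ, m (k + 2) ≠ 0 := by
    by_contra hcon
    push Not at hcon
    have e1 : ∑' k : ℕ, (k : ℝ) * m k = m 1 := by
      rw [tsum_eq_single 1]
      · simp
      · intro b hb
        rcases b with _ | _ | b
        · simp
        · exact absurd rfl hb
        · rw [hcon b, mul_zero]
    have e2 : m 0 + m 1 ≤ 1 := by
      have := sum_le_hasSum (s := {0, 1}) (fun i _ => hm0 i) hs1
      simpa using this
    rw [hs2.tsum_eq] at e1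
    have e3 : m 0 = 0 := le_antisymm (by linarith) (hm0 0)
    have : μ 0 = 0 := by
      rcases (ENNReal.toReal_eq_zero_iff _).1 e3 with h | h
      · exact h
      · exact absurd h (hμt 0)
    exact h0 this
  have hb := bern r hr0 hr1 k
  have hzk := hz (k + 2)
  have hfac : m (k + 2) * (r ^ (k + 2) - 1 + ((k + 2 : ℕ) : ℝ) * (1 - r)) = 0 := by
    rw [← hzk]; ring
  have h5 : r ^ (k + 2) - 1 + ((k + 2 : ℕ) : ℝ) * (1 - r) = 0 := by
    rcases mul_eq_zero.1 hfac with h | h
    · exact absurd h hk
    · exact h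
  rw [h5] at hb
  have h6 : 1 - r = 0 := by nlinarith [sq_nonneg (1 - r)]
  have h7 : r = 1 := by linarith
  have : q = ENNReal.ofReal r := by rw [hr, ENNReal.ofReal_toReal hqt]
  rw [this, h7, ENNReal.ofReal_one]

theorem size_eq (t : PT) : (size t : ℝ≥0∞) = 1 + sumC (fun c => (size c : ℝ≥0∞)) t := by
  induction t with
  | leaf => simp [size, sumC]
  | graft c s hc hs =>
    simp only [size, sumC]
    push_cast
    rw [hs]
    ring

theorem mean_size (hsum : ∑' k, μ k = 1) (hmean : ∑' k : ℕ, (k : ℝ≥0∞) * μ k = 1)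
    (h0 : μ 0 ≠ 0) : ∑' t : PT, prob μ t * size t = ∞ := by
  have hq := total_eq_one hsum hmean h0
  set G := ∑' t : PT, prob μ t * size t with hG
  have h1 : G = 1 + G := by
    have e : ∀ t : PT, prob μ t * size t
        = prob μ t + μ (deg t) * (prodC (prob μ) t * sumC (fun c => (size c : ℝ≥0∞)) t) := by
      intro t
      rw [size_eq, mul_add, mul_one]
      congr 1
      rw [prob_eq, mul_assoc]
    conv_lhs => rw [hG]
    rw [tsum_congr e, ENNReal.tsum_add, hq, sum_weight', hq]
    congr 1
    have e2 : ∀ k : ℕ, μ k * (k * 1 ^ (k - 1) * G) = ((k : ℝ≥0∞) * μ k) * G := by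
      intro k
      rw [one_pow]; ring
    rw [tsum_congr e2, ENNReal.tsum_mul_right, hmean, one_mul]
  by_contra hne
  have h2 : G < G + 1 := ENNReal.lt_add_right hne one_ne_zero
  rw [add_comm, ← h1] at h2
  exact lt_irrefl _ h2

/-- The number of vertices at depth `h` whose subtree is in `B`. -/
noncomputable def occ (B : Set PT) : ℕ → PT → ℝ≥0∞
  | 0, t => B.indicator (fun _ => 1) t
  | h + 1, t => sumC (occ B h) t

theorem occ_mean (hsum : ∑' k, μ k = 1) (hmean : ∑' k : ℕ, (k : ℝ≥0∞) * μ k = 1)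
    (B : Set PT) (h : ℕ) : ∑' t : PT, prob μ t * occ B h t ≤ law μ B := by
  induction h with
  | zero =>
    rw [law_apply]
    refine ENNReal.tsum_le_tsum fun t => ?_
    by_cases hb : t ∈ B
    · simp [occ, hb]
    · simp [occ, hb]
  | succ h ih =>
    have e : ∀ t : PT, prob μ t * occ B (h + 1) t
        = μ (deg t) * (prodC (prob μ) t * sumC (occ B h) t) := by
      intro t
      rw [prob_eq, mul_assoc]
      rfl
    rw [tsum_congr e, sum_weight']
    calc ∑' k : ℕ, μ k * (k * (∑' c, prob μ c) ^ (k - 1) * ∑' c, prob μ c * occ B h c)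
        ≤ ∑' k : ℕ, ((k : ℝ≥0∞) * μ k) * law μ B := by
          refine ENNReal.tsum_le_tsum fun k => ?_
          calc μ k * (k * (∑' c, prob μ c) ^ (k - 1) * ∑' c, prob μ c * occ B h c)
              ≤ μ k * (k * 1 ^ (k - 1) * law μ B) := by
                gcongr
                exact total_le_one hsum
            _ = ((k : ℝ≥0∞) * μ k) * law μ B := by rw [one_pow]; ring
      _ = law μ B := by rw [ENNReal.tsum_mul_right, hmean, one_mul]

theorem le_sumC (ψ : PT → ℝ≥0∞) (t : PT) (i : ℕ) (c : PT) (h : child t i = some c) :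
    ψ c ≤ sumC ψ t := by
  induction t generalizing i with
  | leaf => simp [child] at h
  | graft a s ha hs =>
    cases i with
    | zero =>
      simp only [child, Option.some.injEq] at h
      subst h
      exact le_self_add
    | succ i =>
      exact le_trans (hs i h) le_add_self

theorem size_child (t : PT) (i : ℕ) (c : PT) (h : child t i = some c) : size c + 1 ≤ size t := by
  induction t generalizing i with
  | leaf => simp [child] at h
  | graft a s ha hs =>
    cases i with
    | zero =>
      simp only [child, Option.some.injEq] at h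
      subst h
      have := size_pos s
      simp only [size]; omega
    | succ i =>
      have := hs i h
      simp only [size]; omega

theorem size_subtree (t : PT) (p : List ℕ) (b : PT) (h : subtree t p = some b) :
    p.length + size b ≤ size t := by
  induction p generalizing t with
  | nil =>
    simp only [subtree, Option.some.injEq] at h
    subst h; simp
  | cons i p ih =>
    simp only [subtree, Option.bind_eq_some_iff] at h
    obtain ⟨c, hc, hb⟩ := h
    have h1 := size_child t i c hc
    have h2 := ih c hb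
    simp only [List.length_cons]; omega

theorem occ_ge (B : Set PT) (t : PT) (p : List ℕ) (b : PT) (h : subtree t p = some b)
    (hb : b ∈ B) : 1 ≤ occ B p.length t := by
  induction p generalizing t with
  | nil =>
    simp only [subtree, Option.some.injEq] at h
    subst h
    simp [occ, hb]
  | cons i p ih =>
    simp only [subtree, Option.bind_eq_some_iff] at h
    obtain ⟨c, hc, hb'⟩ := h
    exact le_trans (ih c hb') (le_sumC _ t i c hc)

theorem law_exists (hsum : ∑' k, μ k = 1) (hmean : ∑' k : ℕ, (k : ℝ≥0∞) * μ k = 1)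
    (B : Set PT) (n : ℕ) :
    law μ {t | size t = n ∧ ∃ p b, subtree t p = some b ∧ b ∈ B} ≤ n * law μ B := by
  have h1 : law μ {t | size t = n ∧ ∃ p b, subtree t p = some b ∧ b ∈ B}
      ≤ ∑' t : PT, prob μ t * ∑ h ∈ Finset.range n, occ B h t := by
    rw [law_apply]
    refine ENNReal.tsum_le_tsum fun t => ?_
    by_cases ht : t ∈ {t | size t = n ∧ ∃ p b, subtree t p = some b ∧ b ∈ B}
    · rw [Set.indicator_of_mem ht]
      obtain ⟨hn, p, b, hp, hb⟩ := ht
      have h2 := size_subtree t p b hp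
      have h3 := size_pos b
      have h4 : 1 ≤ ∑ h ∈ Finset.range n, occ B h t := by
        refine le_trans (occ_ge B t p b hp hb) ?_
        exact Finset.single_le_sum (f := fun h => occ B h t) (fun _ _ => zero_le)
          (Finset.mem_range.2 (by omega))
      calc prob μ t = prob μ t * 1 := by rw [mul_one]
        _ ≤ _ := by gcongr
    · rw [Set.indicator_of_notMem ht]
      exact zero_le
  refine le_trans h1 ?_
  calc ∑' t : PT, prob μ t * ∑ h ∈ Finset.range n, occ B h t
      = ∑' t : PT, ∑ h ∈ Finset.range n, prob μ t * occ B h t :=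
        tsum_congr fun t => Finset.mul_sum _ _ _
    _ = ∑ h ∈ Finset.range n, ∑' t : PT, prob μ t * occ B h t :=
        Summable.tsum_finsetSum fun _ _ => ENNReal.summable
    _ ≤ ∑ h ∈ Finset.range n, law μ B := Finset.sum_le_sum fun h _ => occ_mean hsum hmean B h
    _ = n * law μ B := by simp

/-- All vertices have at most `m` children. -/
def Small (m : ℕ) (t : PT) : Prop := ∀ p b, subtree t p = some b → deg b ≤ m

theorem small_leaf (m : ℕ) : Small m leaf := by
  intro p b h
  cases p with
  | nil =>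
    simp only [subtree, Option.some.injEq] at h
    subst h; simp [deg]
  | cons i p => simp [subtree, child] at h

theorem prob_small (μ : ℕ → ℝ≥0∞) (θ : ℝ≥0∞) (m : ℕ) (t : PT)
    (h : ∀ i c, child t i = some c → Small m c) :
    lower (fun k => if k ≤ m then θ * μ k else 0) t = θ ^ (size t - 1) * lower μ t := by
  induction t with
  | leaf => simp [lower, size]
  | graft c s hc hs =>
    have h1 : Small m c := h 0 c rfl
    have h2 : ∀ i d, child s i = some d → Small m d := fun i d hd => h (i + 1) d hd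
    have h3 : deg c ≤ m := h1 [] c rfl
    have h4 : ∀ i d, child c i = some d → Small m d := by
      intro i d hd p b hb
      exact h1 (i :: p) b (by simp only [subtree, hd, Option.bind_some]; exact hb)
    simp only [lower, if_pos h3, hc h4, hs h2, size]
    have h5 := size_pos c
    have h6 := size_pos s
    have h7 : size c + size s - 1 = 1 + (size c - 1) + (size s - 1) := by omega
    rw [h7, pow_add, pow_add]
    ring

theorem law_small (m n : ℕ) (θ y : ℝ≥0∞)
    (hy : ∑' k, (if k ≤ m then θ * μ k else 0) * y ^ k ≤ y) :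
    θ ^ n * law μ {t | size t = n ∧ Small m t} ≤ y := by
  refine le_trans ?_ (total_le _ y hy)
  rw [law_apply, ← ENNReal.tsum_mul_left]
  refine ENNReal.tsum_le_tsum fun t => ?_
  by_cases ht : t ∈ {t | size t = n ∧ Small m t}
  · rw [Set.indicator_of_mem ht]
    obtain ⟨hn, hs⟩ := ht
    have h3 : deg t ≤ m := hs [] t rfl
    have h4 : ∀ i d, child t i = some d → Small m d := by
      intro i d hd p b hb
      exact hs (i :: p) b (by simp only [subtree, hd, Option.bind_some]; exact hb)
    rw [prob, prob, prob_small μ θ m t h4, if_pos h3]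
    have h5 := size_pos t
    have h6 : n = 1 + (size t - 1) := by omega
    conv_lhs => rw [h6, pow_add]
    refine le_of_eq ?_
    ring
  · rw [Set.indicator_of_notMem ht, mul_zero]
    exact zero_le

/-- The number of subtrees of the root that are equal to `s`. -/
def cnt (s : PT) : PT → ℕ
  | leaf => 0
  | graft c r => (if c = s then 1 else 0) + cnt s r

/-- The root has at least `m` children and few of their subtrees are equal to `s`. -/
def Bad (μ : ℕ → ℝ≥0∞) (s : PT) (m : ℕ) : Set PT :=
  {t | m ≤ deg t ∧ 2 * (cnt s t : ℝ) < (prob μ s).toReal * deg t}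

theorem prodC_half (φ : PT → ℝ≥0∞) (s t : PT) :
    prodC (fun c => φ c * (if c = s then 2⁻¹ else 1)) t = prodC φ t * 2⁻¹ ^ (cnt s t) := by
  induction t with
  | leaf => simp [prodC, cnt]
  | graft c r hc hr =>
    simp only [prodC, cnt, hr]
    split_ifs
    · rw [pow_add, pow_one]; ring
    · rw [zero_add, mul_one]; ring

theorem rho_lt (w : ℝ) (hw : 0 < w) : (2 : ℝ) ^ (w / 2) * (1 - w / 2) < 1 := by
  have h1 : (2 : ℝ) ^ (w / 2) = Real.exp (Real.log 2 * (w / 2)) := by
    rw [Real.rpow_def_of_pos (by norm_num)]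
  have h2 : 1 - w / 2 ≤ Real.exp (-(w / 2)) := by
    have := Real.add_one_le_exp (-(w / 2)); linarith
  have h3 : Real.log 2 < 1 := by
    have := Real.log_two_lt_d9; linarith
  calc (2 : ℝ) ^ (w / 2) * (1 - w / 2)
      ≤ Real.exp (Real.log 2 * (w / 2)) * Real.exp (-(w / 2)) := by
        rw [h1]; gcongr
    _ = Real.exp ((Real.log 2 - 1) * (w / 2)) := by rw [← Real.exp_add]; congr 1; ring
    _ < 1 := by
        rw [Real.exp_lt_one_iff]
        nlinarith

theorem law_bad (hsum : ∑' k, μ k = 1) (s : PT) (hs : prob μ s ≠ 0) :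
    ∃ ρ : ℝ, 0 ≤ ρ ∧ ρ < 1 ∧ ∀ m : ℕ, law μ (Bad μ s m) ≤ ENNReal.ofReal (ρ ^ m) := by
  have hq := total_le_one hsum
  have hs1 : prob μ s ≤ 1 := le_trans (ENNReal.le_tsum s) hq
  have hst : prob μ s ≠ ∞ := ne_top_of_le_ne_top ENNReal.one_ne_top hs1
  set w : ℝ := (prob μ s).toReal with hw
  have hw0 : 0 < w := ENNReal.toReal_pos hs hst
  have hw1 : w ≤ 1 := ENNReal.toReal_le_of_le_ofReal (by norm_num) (by simpa using hs1)
  have hρ := rho_lt w hw0
  set a : ℝ := (2 : ℝ) ^ (w / 2) with ha
  have ha0 : 0 < a := Real.rpow_pos_of_pos (by norm_num) _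
  refine ⟨a * (1 - w / 2), by nlinarith [mul_nonneg ha0.le (by linarith : (0:ℝ) ≤ 1 - w / 2)],
    hρ, fun m => ?_⟩
  set ρ : ℝ := a * (1 - w / 2) with hρd
  have hρ0 : 0 ≤ ρ := mul_nonneg ha0.le (by linarith)
  -- the total weight
  have htot : ∑' c, prob μ c * (if c = s then 2⁻¹ else 1) ≤ ENNReal.ofReal (1 - w / 2) := by
    have e1 : ∑' c, prob μ c * (if c = s then 2⁻¹ else 1) + prob μ s * 2⁻¹ ≤ 1 := by
      refine le_trans (le_of_eq ?_) hq
      have : prob μ s * 2⁻¹ = ∑' c, (if c = s then prob μ s * 2⁻¹ else 0) := by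
        rw [tsum_ite_eq]
      rw [this, ← ENNReal.tsum_add]
      refine tsum_congr fun c => ?_
      by_cases hc : c = s
      · subst hc
        rw [if_pos rfl, if_pos rfl, ← mul_add, ENNReal.inv_two_add_inv_two, mul_one]
      · simp [hc]
    have e2 : prob μ s * 2⁻¹ = ENNReal.ofReal (w / 2) := by
      rw [div_eq_mul_inv, ENNReal.ofReal_mul hw0.le, hw, ENNReal.ofReal_toReal hst,
        ENNReal.ofReal_inv_of_pos (by norm_num)]
      simp
    have e3 : ENNReal.ofReal (1 - w / 2) = 1 - ENNReal.ofReal (w / 2) := by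
      rw [ENNReal.ofReal_sub _ (by linarith), ENNReal.ofReal_one]
    rw [e3]
    rw [e2] at e1
    exact ENNReal.le_sub_of_add_le_right ENNReal.ofReal_ne_top e1
  have key : ∀ t : PT, (Bad μ s m).indicator (prob μ) t
      ≤ (if m ≤ deg t then μ (deg t) * ENNReal.ofReal a ^ (deg t) else 0)
        * prodC (fun c => prob μ c * (if c = s then 2⁻¹ else 1)) t := by
    intro t
    by_cases ht : t ∈ Bad μ s m
    · rw [Set.indicator_of_mem ht]
      obtain ⟨h1, h2⟩ := ht
      rw [if_pos h1, prodC_half, prob_eq]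
      have h3 : (1 : ℝ≥0∞) ≤ ENNReal.ofReal a ^ (deg t) * 2⁻¹ ^ (cnt s t) := by
        have e1 : (2 : ℝ≥0∞)⁻¹ = ENNReal.ofReal (2⁻¹) := by
          rw [ENNReal.ofReal_inv_of_pos (by norm_num)]; simp
        rw [e1, ← ENNReal.ofReal_pow ha0.le, ← ENNReal.ofReal_pow (by norm_num),
          ← ENNReal.ofReal_mul (by positivity), ENNReal.one_le_ofReal]
        have e2 : a ^ (deg t) = (2 : ℝ) ^ (w / 2 * deg t) := by
          rw [ha, ← Real.rpow_mul_natCast (by norm_num)]
        rw [e2, inv_pow, ← div_eq_mul_inv, one_le_div (by positivity), ← Real.rpow_natCast]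
        refine Real.rpow_le_rpow_of_exponent_le (by norm_num) ?_
        rw [← hw] at h2
        linarith
      calc μ (deg t) * prodC (prob μ) t
          = μ (deg t) * prodC (prob μ) t * 1 := by rw [mul_one]
        _ ≤ μ (deg t) * prodC (prob μ) t * (ENNReal.ofReal a ^ (deg t) * 2⁻¹ ^ (cnt s t)) := by
            gcongr
        _ = _ := by ring
    · rw [Set.indicator_of_notMem ht]
      exact zero_le
  rw [law_apply]
  refine le_trans (ENNReal.tsum_le_tsum key) ?_
  rw [sum_weight (fun k => if m ≤ k then μ k * ENNReal.ofReal a ^ k else 0)]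
  calc ∑' k, (if m ≤ k then μ k * ENNReal.ofReal a ^ k else 0)
        * (∑' c, prob μ c * (if c = s then 2⁻¹ else 1)) ^ k
      ≤ ∑' k, μ k * ENNReal.ofReal (ρ ^ m) := by
        refine ENNReal.tsum_le_tsum fun k => ?_
        split_ifs with hk
        · calc μ k * ENNReal.ofReal a ^ k * (∑' c, prob μ c * (if c = s then 2⁻¹ else 1)) ^ k
              ≤ μ k * ENNReal.ofReal a ^ k * (ENNReal.ofReal (1 - w / 2)) ^ k := by gcongr
            _ = μ k * ENNReal.ofReal (ρ ^ k) := by
                rw [mul_assoc, ← mul_pow, ← ENNReal.ofReal_mul ha0.le, ENNReal.ofReal_pow hρ0]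
            _ ≤ μ k * ENNReal.ofReal (ρ ^ m) := by
                exact mul_le_mul' le_rfl
                  (ENNReal.ofReal_le_ofReal (pow_le_pow_of_le_one hρ0 hρ.le hk))
        · simp
    _ = ENNReal.ofReal (ρ ^ m) := by rw [ENNReal.tsum_mul_right, hsum, one_mul]

end

end PT

end Pool.Agent.R974.LC
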