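import Pool.Agent.R974.LC.Defs
set_option autoImplicit false

namespace Pool.Agent.R974.LC

open MeasureTheory
open scoped ENNReal

namespace PT

theorem size_pos (t : PT) : 1 ≤ size t := by
  induction t with
  | leaf => simp [size]
  | graft c s hc hs => simp only [size]; omega

theorem tsum_PT (f : PT → ℝ≥0∞) : ∑' t : PT, f t = f leaf + ∑' c, ∑' s, f (graft c s) := by
  have h1 : ∀ t, f t = (if t = leaf then f leaf else 0) + (if t = leaf then 0 else f t) := by
    intro t
    by_cases h : t = leaf
    · subst h; simp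
    · simp [h]
  rw [tsum_congr h1, ENNReal.tsum_add, tsum_ite_eq]
  congr 1
  have hinj : Function.Injective (fun p : PT × PT => graft p.1 p.2) := by
    rintro ⟨a, b⟩ ⟨c, d⟩ h
    simp only [graft.injEq] at h
    exact Prod.ext h.1 h.2
  have hs : Function.support (fun t => if t = leaf then 0 else f t) ⊆
      Set.range (fun p : PT × PT => graft p.1 p.2) := by
    intro t ht
    cases t with
    | leaf => simp at ht
    | graft c s => exact ⟨(c, s), rfl⟩
  rw [← hinj.tsum_eq hs, ← ENNReal.tsum_prod]
  refine tsum_congr fun p => ?_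
  simp

theorem lower_eq (β : ℕ → ℝ≥0∞) (t : PT) : lower β t = prodC (prob β) t := by
  induction t with
  | leaf => rfl
  | graft c s hc hs => simp only [lower, prodC, prob, hs]

theorem prob_eq (β : ℕ → ℝ≥0∞) (t : PT) : prob β t = β (deg t) * prodC (prob β) t := by
  rw [prob, lower_eq]

theorem sum_deg (φ : PT → ℝ≥0∞) (k : ℕ) :
    ∑' t : PT, (if deg t = k then prodC φ t else 0) = (∑' c, φ c) ^ k := by
  induction k with
  | zero =>
    rw [tsum_PT]
    simp [deg, prodC]
  | succ k ih =>
    rw [tsum_PT]
    have h0 : (if deg leaf = k + 1 then prodC φ leaf else 0) = 0 := by simp [deg]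
    rw [h0, zero_add, pow_succ', ← ENNReal.tsum_mul_right]
    refine tsum_congr fun c => ?_
    rw [← ih, ← ENNReal.tsum_mul_left]
    refine tsum_congr fun s => ?_
    simp only [deg, prodC, Nat.add_right_cancel_iff]
    split_ifs <;> simp

theorem sum_weight (b : ℕ → ℝ≥0∞) (φ : PT → ℝ≥0∞) :
    ∑' t : PT, b (deg t) * prodC φ t = ∑' k, b k * (∑' c, φ c) ^ k := by
  have h : ∀ t : PT, b (deg t) * prodC φ t
      = ∑' k, b k * (if deg t = k then prodC φ t else 0) := by
    intro t
    rw [tsum_eq_single (deg t)]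
    · simp
    · intro k hk
      rw [if_neg (Ne.symm hk), mul_zero]
  rw [tsum_congr h, ENNReal.tsum_comm]
  refine tsum_congr fun k => ?_
  rw [ENNReal.tsum_mul_left, sum_deg]

theorem sum_deg' (φ ψ : PT → ℝ≥0∞) (k : ℕ) :
    ∑' t : PT, (if deg t = k then prodC φ t * sumC ψ t else 0)
      = k * (∑' c, φ c) ^ (k - 1) * ∑' c, φ c * ψ c := by
  induction k with
  | zero =>
    rw [tsum_PT]
    simp [deg, sumC]
  | succ k ih =>
    rw [tsum_PT]
    have h0 : (if deg leaf = k + 1 then prodC φ leaf * sumC ψ leaf else 0) = 0 := by simp [deg]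
    have h1 : ∀ c s : PT, (if deg (graft c s) = k + 1 then
        prodC φ (graft c s) * sumC ψ (graft c s) else 0)
        = (φ c * ψ c) * (if deg s = k then prodC φ s else 0)
          + φ c * (if deg s = k then prodC φ s * sumC ψ s else 0) := by
      intro c s
      simp only [deg, prodC, sumC, Nat.add_right_cancel_iff]
      split_ifs
      · ring
      · simp
    rw [h0, zero_add]
    have h2 : ∀ c : PT, ∑' s, (if deg (graft c s) = k + 1 then
        prodC φ (graft c s) * sumC ψ (graft c s) else 0)
        = (φ c * ψ c) * (∑' c, φ c) ^ k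
          + φ c * (k * (∑' c, φ c) ^ (k - 1) * ∑' c, φ c * ψ c) := by
      intro c
      rw [tsum_congr (h1 c), ENNReal.tsum_add, ENNReal.tsum_mul_left, ENNReal.tsum_mul_left,
        sum_deg, ih]
    rw [tsum_congr h2, ENNReal.tsum_add, ENNReal.tsum_mul_right, ENNReal.tsum_mul_right]
    rcases Nat.eq_zero_or_pos k with hk | hk
    · subst hk; simp
    · obtain ⟨j, rfl⟩ : ∃ j, k = j + 1 := ⟨k - 1, by omega⟩
      simp only [Nat.add_sub_cancel]
      push_cast
      ring

theorem sum_weight' (b : ℕ → ℝ≥0∞) (φ ψ : PT → ℝ≥0∞) :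
    ∑' t : PT, b (deg t) * (prodC φ t * sumC ψ t)
      = ∑' k, b k * (k * (∑' c, φ c) ^ (k - 1) * ∑' c, φ c * ψ c) := by
  have h : ∀ t : PT, b (deg t) * (prodC φ t * sumC ψ t)
      = ∑' k, b k * (if deg t = k then prodC φ t * sumC ψ t else 0) := by
    intro t
    rw [tsum_eq_single (deg t)]
    · simp
    · intro k hk
      rw [if_neg (Ne.symm hk), mul_zero]
  rw [tsum_congr h, ENNReal.tsum_comm]
  refine tsum_congr fun k => ?_
  rw [ENNReal.tsum_mul_left, sum_deg']

theorem prodC_congr {φ φ' : PT → ℝ≥0∞} {N : ℕ} (h : ∀ c, size c ≤ N → φ c = φ' c) (t : PT)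
    (ht : size t ≤ N + 1) : prodC φ t = prodC φ' t := by
  induction t with
  | leaf => rfl
  | graft c s hc hs =>
    simp only [size] at ht
    have h1 := size_pos s
    have h2 := size_pos c
    simp only [prodC]
    rw [h c (by omega), hs (by omega)]

theorem total_le (β : ℕ → ℝ≥0∞) (y : ℝ≥0∞) (hy : ∑' k, β k * y ^ k ≤ y) :
    ∑' t : PT, prob β t ≤ y := by
  have hN : ∀ N : ℕ, ∑' t : PT, (if size t ≤ N then prob β t else 0) ≤ y := by
    intro N
    induction N with
    | zero =>
      have : ∀ t : PT, (if size t ≤ 0 then prob β t else 0) = 0 := by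
        intro t
        have := size_pos t
        rw [if_neg (by omega)]
      rw [tsum_congr this]
      simp
    | succ N ih =>
      calc ∑' t : PT, (if size t ≤ N + 1 then prob β t else 0)
          ≤ ∑' t : PT, β (deg t) * prodC (fun c => if size c ≤ N then prob β c else 0) t := by
            refine ENNReal.tsum_le_tsum fun t => ?_
            split_ifs with h
            · rw [prob_eq, prodC_congr (φ' := fun c => if size c ≤ N then prob β c else 0)
                (N := N) (fun c hc => by simp [hc]) t h]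
            · exact zero_le
        _ = ∑' k, β k * (∑' c, (if size c ≤ N then prob β c else 0)) ^ k := sum_weight _ _
        _ ≤ ∑' k, β k * y ^ k := by
            refine ENNReal.tsum_le_tsum fun k => ?_
            gcongr
        _ ≤ y := hy
  rw [ENNReal.tsum_eq_iSup_sum]
  refine iSup_le fun S => ?_
  refine le_trans ?_ (hN (S.sup size))
  refine le_trans ?_ (ENNReal.sum_le_tsum S)
  refine Finset.sum_le_sum fun t ht => ?_
  rw [if_pos (Finset.le_sup (f := size) ht)]

end PT

end Pool.Agent.R974.LC
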