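import Pool.Agent.R974.LC.Mass
set_option autoImplicit false

namespace Pool.Agent.R974.LC

open MeasureTheory Filter Topology
open scoped ENNReal

namespace PT

/-- The tail of the offspring law. -/
noncomputable def tl (μ : ℕ → ℝ≥0∞) (k : ℕ) : ℝ := (∑' j, if k ≤ j then μ j else 0).toReal

section
variable {μ : ℕ → ℝ≥0∞}

theorem tl_ne_top (hsum : ∑' k, μ k = 1) (k : ℕ) : ∑' j, (if k ≤ j then μ j else 0) ≠ ∞ := by
  refine ne_top_of_le_ne_top ENNReal.one_ne_top ?_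
  rw [← hsum]
  refine ENNReal.tsum_le_tsum fun j => ?_
  split_ifs
  · exact le_rfl
  · exact zero_le

theorem tl_nonneg (k : ℕ) : 0 ≤ tl μ k := ENNReal.toReal_nonneg

theorem sum_le_tl (hsum : ∑' k, μ k = 1) (j m : ℕ) :
    ∑ k ∈ Finset.range (m + 1), (if j ≤ k then (μ k).toReal else 0) ≤ tl μ j := by
  have hμt : ∀ k, μ k ≠ ∞ := fun k =>
    ne_top_of_le_ne_top ENNReal.one_ne_top (hsum ▸ ENNReal.le_tsum k)
  have h : ∑ k ∈ Finset.range (m + 1), (if j ≤ k then (μ k).toReal else 0)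
      = (∑ k ∈ Finset.range (m + 1), (if j ≤ k then μ k else 0)).toReal := by
    rw [ENNReal.toReal_sum]
    · refine Finset.sum_congr rfl fun k _ => ?_
      split_ifs <;> simp
    · intro k _
      split_ifs
      · exact hμt k
      · simp
  rw [h, tl]
  exact ENNReal.toReal_mono (tl_ne_top hsum j) (ENNReal.sum_le_tsum _)

theorem second_moment (hsum : ∑' k, μ k = 1) (m : ℕ) :
    ∑ k ∈ Finset.range (m + 1), (k : ℝ) ^ 2 * (μ k).toReal
      ≤ ∑ j ∈ Finset.range (m + 1), 2 * (j : ℝ) * tl μ j := by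
  have h1 : ∀ k ∈ Finset.range (m + 1), (k : ℝ) ^ 2 * (μ k).toReal
      ≤ ∑ j ∈ Finset.range (m + 1), 2 * (j : ℝ) * (if j ≤ k then (μ k).toReal else 0) := by
    intro k hk
    have hk' : k ≤ m := by simpa [Nat.lt_succ_iff] using hk
    have e1 : ∀ k : ℕ, (k : ℝ) ^ 2 ≤ ∑ j ∈ Finset.range (k + 1), 2 * (j : ℝ) := by
      intro k
      induction k with
      | zero => simp
      | succ k ih =>
        rw [Finset.sum_range_succ]
        push_cast
        nlinarith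
    calc (k : ℝ) ^ 2 * (μ k).toReal
        ≤ (∑ j ∈ Finset.range (k + 1), 2 * (j : ℝ)) * (μ k).toReal :=
          mul_le_mul_of_nonneg_right (e1 k) ENNReal.toReal_nonneg
      _ = ∑ j ∈ Finset.range (k + 1), 2 * (j : ℝ) * (if j ≤ k then (μ k).toReal else 0) := by
          rw [Finset.sum_mul]
          refine Finset.sum_congr rfl fun j hj => ?_
          rw [if_pos (by simpa [Nat.lt_succ_iff] using hj)]
      _ ≤ _ := by
          refine Finset.sum_le_sum_of_subset_of_nonneg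
            (Finset.range_mono (by omega)) fun j _ _ => ?_
          split_ifs
          · positivity
          · simp
  refine le_trans (Finset.sum_le_sum h1) ?_
  rw [Finset.sum_comm]
  refine Finset.sum_le_sum fun j _ => ?_
  rw [← Finset.mul_sum]
  exact mul_le_mul_of_nonneg_left (sum_le_tl hsum j m) (by positivity)

theorem rpow_step (s : ℝ) (hs : 0 < s) (hs1 : s ≤ 1) (m : ℕ) :
    s * ((m + 1 : ℕ) : ℝ) ^ (s - 1) ≤ ((m + 1 : ℕ) : ℝ) ^ s - (m : ℝ) ^ s := by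
  set a : ℝ := ((m + 1 : ℕ) : ℝ) with ha
  have ha0 : 0 < a := by rw [ha]; positivity
  have ha1 : (m : ℝ) = a * (1 + -(1 / a)) := by
    field_simp
    rw [ha]; push_cast; ring
  have hle : 1 / a ≤ 1 := by
    rw [div_le_one ha0, ha]
    have : (1 : ℕ) ≤ m + 1 := by omega
    exact_mod_cast this
  have hb := rpow_one_add_le_one_add_mul_self (s := -(1 / a)) (by linarith) hs.le hs1
  rw [ha1, Real.mul_rpow ha0.le (by linarith)]
  have h3 : a ^ (s - 1) = a ^ s / a := by rw [Real.rpow_sub ha0, Real.rpow_one]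
  rw [h3]
  have h4 : 0 < a ^ s := Real.rpow_pos_of_pos ha0 _
  calc s * (a ^ s / a) = a ^ s - a ^ s * (1 + s * -(1 / a)) := by field_simp; ring
    _ ≤ a ^ s - a ^ s * (1 + -(1 / a)) ^ s := by
        have := mul_le_mul_of_nonneg_left hb h4.le
        linarith

theorem sum_tl_le (α : ℝ) (hα : 1 < α) (hα2 : α < 2) (C : ℝ) (hC0 : 0 ≤ C)
    (hC : ∀ k : ℕ, tl μ k * (k : ℝ) ^ α ≤ C) (m : ℕ) :
    ∑ j ∈ Finset.range (m + 1), 2 * (j : ℝ) * tl μ j
      ≤ 2 * C / (2 - α) * (m : ℝ) ^ (2 - α) := by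
  have hs : 0 < 2 - α := by linarith
  induction m with
  | zero => simp [Real.zero_rpow hs.ne']
  | succ m ih =>
    rw [Finset.sum_range_succ]
    have h1 := rpow_step (2 - α) hs (by linarith) m
    set a : ℝ := ((m + 1 : ℕ) : ℝ) with ha
    have ha0 : 0 < a := by rw [ha]; positivity
    have h2 : tl μ (m + 1) ≤ C * a ^ (-α) := by
      have := hC (m + 1)
      rw [← ha] at this
      rw [Real.rpow_neg ha0.le, ← div_eq_mul_inv, le_div_iff₀ (Real.rpow_pos_of_pos ha0 _)]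
      exact this
    have h3 : a * a ^ (-α) = a ^ (2 - α - 1) := by
      rw [show (2 - α - 1 : ℝ) = 1 + -α by ring, Real.rpow_add ha0, Real.rpow_one]
    have h4 : 2 * a * tl μ (m + 1) ≤ 2 * C * a ^ (2 - α - 1) := by
      rw [← h3]
      calc 2 * a * tl μ (m + 1) ≤ 2 * a * (C * a ^ (-α)) := by gcongr
        _ = _ := by ring
    have h5 : 2 * C * a ^ (2 - α - 1) ≤ 2 * C / (2 - α) * (a ^ (2 - α) - (m : ℝ) ^ (2 - α)) := by
      calc 2 * C * a ^ (2 - α - 1) = 2 * C / (2 - α) * ((2 - α) * a ^ (2 - α - 1)) := by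
            field_simp
        _ ≤ _ := by
            refine mul_le_mul_of_nonneg_left h1 (by positivity)
    nlinarith [ih, h4, h5]

theorem first_moment (hmean : ∑' k : ℕ, (k : ℝ≥0∞) * μ k = 1) (m : ℕ) :
    ∑ k ∈ Finset.range (m + 1), (k : ℝ) * (μ k).toReal + ((m + 1 : ℕ) : ℝ) * tl μ (m + 1) ≤ 1 := by
  have h1 : ∑' k : ℕ, ((if k ≤ m then (k : ℝ≥0∞) * μ k else 0)
      + ((m + 1 : ℕ) : ℝ≥0∞) * (if m + 1 ≤ k then μ k else 0)) ≤ 1 := by
    rw [← hmean]
    refine ENNReal.tsum_le_tsum fun k => ?_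
    by_cases hk : k ≤ m
    · rw [if_pos hk, if_neg (by omega), mul_zero, add_zero]
    · rw [if_neg hk, if_pos (by omega), zero_add]
      gcongr
      omega
  rw [ENNReal.tsum_add, ENNReal.tsum_mul_left] at h1
  have hA : ∑' k : ℕ, (if k ≤ m then (k : ℝ≥0∞) * μ k else 0)
      = ∑ k ∈ Finset.range (m + 1), (k : ℝ≥0∞) * μ k := by
    rw [tsum_eq_sum (s := Finset.range (m + 1))]
    · refine Finset.sum_congr rfl fun k hk => ?_
      rw [if_pos (by simpa [Nat.lt_succ_iff] using hk)]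
    · intro k hk
      rw [if_neg (by simpa [Nat.lt_succ_iff] using hk)]
  rw [hA] at h1
  have h2 := ENNReal.toReal_mono ENNReal.one_ne_top h1
  have h3 : ∑ k ∈ Finset.range (m + 1), (k : ℝ≥0∞) * μ k ≠ ∞ :=
    ne_top_of_le_ne_top ENNReal.one_ne_top (le_trans le_self_add h1)
  have h4 : ((m + 1 : ℕ) : ℝ≥0∞) * ∑' k, (if m + 1 ≤ k then μ k else 0) ≠ ∞ :=
    ne_top_of_le_ne_top ENNReal.one_ne_top (le_trans le_add_self h1)
  rw [ENNReal.toReal_add h3 h4, ENNReal.toReal_mul, ENNReal.toReal_sum, ENNReal.toReal_natCast,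
    ENNReal.toReal_one] at h2
  · simpa [ENNReal.toReal_mul, tl] using h2
  · intro k hk
    exact ne_top_of_le_ne_top h3 (Finset.single_le_sum (f := fun k : ℕ => (k : ℝ≥0∞) * μ k)
      (fun _ _ => zero_le) hk)

theorem exp_sum (hsum : ∑' k, μ k = 1) (hmean : ∑' k : ℕ, (k : ℝ≥0∞) * μ k = 1) (m : ℕ)
    (l : ℝ) (hl0 : 0 ≤ l) (hl : l * m ≤ 1) :
    ∑ k ∈ Finset.range (m + 1), (μ k).toReal * Real.exp (l * k)
      ≤ Real.exp (l - l * (((m + 1 : ℕ) : ℝ) * tl μ (m + 1))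
        + l ^ 2 * ∑ k ∈ Finset.range (m + 1), (k : ℝ) ^ 2 * (μ k).toReal) := by
  have h0 : ∑ k ∈ Finset.range (m + 1), (μ k).toReal ≤ 1 := by
    have := sum_le_tl hsum 0 m
    simp only [Nat.zero_le, if_true] at this
    refine le_trans this ?_
    rw [tl]
    simp [hsum]
  have h1 := first_moment hmean m
  have h2 : ∀ k ∈ Finset.range (m + 1), (μ k).toReal * Real.exp (l * k)
      ≤ (μ k).toReal + l * ((k : ℝ) * (μ k).toReal) + l ^ 2 * ((k : ℝ) ^ 2 * (μ k).toReal) := by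
    intro k hk
    have hk' : k ≤ m := by simpa [Nat.lt_succ_iff] using hk
    have hk'' : (k : ℝ) ≤ m := by exact_mod_cast hk'
    have e1 : l * k ≤ 1 := le_trans (by gcongr) hl
    have e2 : 0 ≤ l * k := by positivity
    have e3 := Real.abs_exp_sub_one_sub_id_le (x := l * k) (by rw [abs_of_nonneg e2]; exact e1)
    have e4 : Real.exp (l * k) ≤ 1 + l * k + (l * k) ^ 2 := by
      have := (abs_le.1 e3).2
      linarith
    have e5 : 0 ≤ (μ k).toReal := ENNReal.toReal_nonneg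
    nlinarith [mul_le_mul_of_nonneg_left e4 e5]
  refine le_trans (Finset.sum_le_sum h2) ?_
  rw [Finset.sum_add_distrib, Finset.sum_add_distrib, ← Finset.mul_sum, ← Finset.mul_sum]
  refine le_trans ?_ (Real.add_one_le_exp _)
  nlinarith [mul_le_mul_of_nonneg_left h1 hl0]

theorem small_bound (hsum : ∑' k, μ k = 1) (hmean : ∑' k : ℕ, (k : ℝ≥0∞) * μ k = 1)
    (α c : ℝ) (hα : 1 < α) (hα2 : α < 2) (hc : 0 < c)
    (htail : Tendsto (fun k : ℕ => tl μ k * (k : ℝ) ^ α) atTop (𝓝 c)) :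
    ∃ κ : ℝ, 0 < κ ∧ ∃ m₀ : ℕ, 1 ≤ m₀ ∧ ∀ m ≥ m₀, ∀ n : ℕ,
      law μ {t | size t = n ∧ Small m t}
        ≤ ENNReal.ofReal (Real.exp (1 - κ * n * (m : ℝ) ^ (-α))) := by
  obtain ⟨C, hC⟩ := htail.bddAbove_range
  have hC' : ∀ k : ℕ, tl μ k * (k : ℝ) ^ α ≤ C := fun k => hC ⟨k, rfl⟩
  have hcC : c ≤ C := le_of_tendsto' htail hC'
  have hCpos : 0 < C := lt_of_lt_of_le hc hcC
  have hs : 0 < 2 - α := by linarith
  set C₂ : ℝ := 2 * C / (2 - α) with hC₂
  have hC₂pos : 0 < C₂ := by positivity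
  set c₁ : ℝ := c / 4 with hc₁
  have hc₁pos : 0 < c₁ := by positivity
  set δ : ℝ := min 1 (c₁ / (2 * C₂)) with hδ
  have hδ0 : 0 < δ := lt_min one_pos (by positivity)
  have hδ1 : δ ≤ 1 := min_le_left _ _
  have hδ2 : δ * C₂ ≤ c₁ / 2 := by
    have : δ ≤ c₁ / (2 * C₂) := min_le_right _ _
    calc δ * C₂ ≤ c₁ / (2 * C₂) * C₂ := by gcongr
      _ = c₁ / 2 := by field_simp
  have hev : ∀ᶠ k : ℕ in atTop, c / 2 < tl μ k * (k : ℝ) ^ α :=
    htail.eventually (lt_mem_nhds (by linarith))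
  obtain ⟨m₁, hm₁⟩ := eventually_atTop.1 hev
  refine ⟨δ * c₁ / 2, by positivity, max m₁ 1, le_max_right _ _, fun m hm n => ?_⟩
  have hm1 : 1 ≤ m := le_trans (le_max_right _ _) hm
  have hm2 : m₁ ≤ m := le_trans (le_max_left _ _) hm
  have hmr : (1 : ℝ) ≤ m := by exact_mod_cast hm1
  have hm0 : (0 : ℝ) < m := by linarith
  set l : ℝ := δ / m with hl
  have hl0 : 0 < l := by positivity
  have hlm : l * m ≤ 1 := by rw [hl]; field_simp; exact hδ1
  have hl1 : l ≤ 1 := by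
    rw [hl, div_le_one hm0]; linarith
  set P : ℝ := (m : ℝ) ^ (-α) with hP
  have hP0 : 0 < P := Real.rpow_pos_of_pos hm0 _
  -- lower bound for the first moment of the tail
  have hT : c₁ * (m * P) ≤ ((m + 1 : ℕ) : ℝ) * tl μ (m + 1) := by
    have e1 := hm₁ (m + 1) (by omega)
    set a : ℝ := ((m + 1 : ℕ) : ℝ) with ha
    have ha0 : 0 < a := by rw [ha]; positivity
    have ha2 : a ≤ 2 * m := by rw [ha]; push_cast; linarith
    have e2 : c / 2 * a ^ (-α) ≤ tl μ (m + 1) := by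
      rw [Real.rpow_neg ha0.le, ← div_eq_mul_inv, div_le_iff₀ (Real.rpow_pos_of_pos ha0 _)]
      exact e1.le
    have e3 : a ^ (1 - α) = a * a ^ (-α) := by
      rw [show (1 - α : ℝ) = 1 + -α by ring, Real.rpow_add ha0, Real.rpow_one]
    have e4 : (2 * (m : ℝ)) ^ (1 - α) ≤ a ^ (1 - α) :=
      Real.rpow_le_rpow_of_nonpos ha0 ha2 (by linarith)
    have e5 : (2 * (m : ℝ)) ^ (1 - α) = 2 ^ (1 - α) * (m * P) := by
      rw [Real.mul_rpow (by norm_num) hm0.le, hP]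
      congr 1
      rw [show (1 - α : ℝ) = 1 + -α by ring, Real.rpow_add hm0, Real.rpow_one]
    have e6 : (1 / 2 : ℝ) ≤ 2 ^ (1 - α) := by
      have : (2 : ℝ) ^ (-1 : ℝ) ≤ 2 ^ (1 - α) :=
        Real.rpow_le_rpow_of_exponent_le (by norm_num) (by linarith)
      rwa [Real.rpow_neg_one, ← one_div] at this
    calc c₁ * (m * P) = c / 2 * (1 / 2 * (m * P)) := by rw [hc₁]; ring
      _ ≤ c / 2 * (2 ^ (1 - α) * (m * P)) := by gcongr
      _ = c / 2 * (2 * (m : ℝ)) ^ (1 - α) := by rw [e5]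
      _ ≤ c / 2 * a ^ (1 - α) := by gcongr
      _ = a * (c / 2 * a ^ (-α)) := by rw [e3]; ring
      _ ≤ a * tl μ (m + 1) := by gcongr
  have hV : ∑ k ∈ Finset.range (m + 1), (k : ℝ) ^ 2 * (μ k).toReal ≤ C₂ * ((m : ℝ) ^ 2 * P) := by
    refine le_trans (second_moment hsum m) (le_trans (sum_tl_le α hα hα2 C hCpos.le hC' m) ?_)
    rw [← hC₂]
    have : (m : ℝ) ^ (2 - α) = (m : ℝ) ^ 2 * P := by
      rw [show (2 - α : ℝ) = (2 : ℝ) + -α by ring, Real.rpow_add hm0, hP]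
      norm_num
    rw [this]
  set T : ℝ := ((m + 1 : ℕ) : ℝ) * tl μ (m + 1) with hTd
  set V : ℝ := ∑ k ∈ Finset.range (m + 1), (k : ℝ) ^ 2 * (μ k).toReal with hVd
  have hkey : δ * c₁ / 2 * P + (l - l * T + l ^ 2 * V) ≤ l := by
    have e1 : l * T ≥ δ * c₁ * P := by
      calc δ * c₁ * P = l * (c₁ * (m * P)) := by rw [hl]; field_simp
        _ ≤ l * T := by gcongr
    have e2 : l ^ 2 * V ≤ δ * (c₁ / 2) * P := by
      calc l ^ 2 * V ≤ l ^ 2 * (C₂ * ((m : ℝ) ^ 2 * P)) := by gcongr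
        _ = δ * (δ * C₂) * P := by rw [hl]; field_simp
        _ ≤ δ * (c₁ / 2) * P := by gcongr
    nlinarith
  have hreal : Real.exp (δ * c₁ / 2 * P)
      * ∑ k ∈ Finset.range (m + 1), (μ k).toReal * Real.exp (l * k) ≤ Real.exp l := by
    calc Real.exp (δ * c₁ / 2 * P)
        * ∑ k ∈ Finset.range (m + 1), (μ k).toReal * Real.exp (l * k)
        ≤ Real.exp (δ * c₁ / 2 * P) * Real.exp (l - l * T + l ^ 2 * V) := by
          gcongr
          exact exp_sum hsum hmean m l hl0.le hlm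
      _ = Real.exp (δ * c₁ / 2 * P + (l - l * T + l ^ 2 * V)) := (Real.exp_add _ _).symm
      _ ≤ Real.exp l := Real.exp_le_exp.2 hkey
  have hμt : ∀ k, μ k ≠ ∞ := fun k =>
    ne_top_of_le_ne_top ENNReal.one_ne_top (hsum ▸ ENNReal.le_tsum k)
  have hy : ∑' k, (if k ≤ m then ENNReal.ofReal (Real.exp (δ * c₁ / 2 * P)) * μ k else 0)
      * ENNReal.ofReal (Real.exp l) ^ k ≤ ENNReal.ofReal (Real.exp l) := by
    rw [tsum_eq_sum (s := Finset.range (m + 1))]
    · refine le_trans (le_of_eq ?_) (ENNReal.ofReal_le_ofReal hreal)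
      rw [ENNReal.ofReal_mul (Real.exp_pos _).le, ENNReal.ofReal_sum_of_nonneg
        (fun k _ => mul_nonneg ENNReal.toReal_nonneg (Real.exp_pos _).le), Finset.mul_sum]
      refine Finset.sum_congr rfl fun k hk => ?_
      rw [if_pos (by simpa [Nat.lt_succ_iff] using hk), ENNReal.ofReal_mul ENNReal.toReal_nonneg,
        ENNReal.ofReal_toReal (hμt k), ← ENNReal.ofReal_pow (Real.exp_pos _).le,
        ← Real.exp_nat_mul, mul_assoc, mul_comm (k : ℝ) l]
    · intro k hk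
      rw [if_neg (by simpa [Nat.lt_succ_iff] using hk), zero_mul]
  have hfin := law_small (μ := μ) m n (ENNReal.ofReal (Real.exp (δ * c₁ / 2 * P)))
    (ENNReal.ofReal (Real.exp l)) hy
  have hθ : ENNReal.ofReal (Real.exp (δ * c₁ / 2 * P)) ^ n
      = ENNReal.ofReal (Real.exp (δ * c₁ / 2 * n * P)) := by
    rw [← ENNReal.ofReal_pow (Real.exp_pos _).le, ← Real.exp_nat_mul]
    congr 2; ring
  rw [hθ] at hfin
  have h6 : law μ {t | size t = n ∧ Small m t}
      = ENNReal.ofReal (Real.exp (-(δ * c₁ / 2 * n * P)))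
        * (ENNReal.ofReal (Real.exp (δ * c₁ / 2 * n * P))
          * law μ {t | size t = n ∧ Small m t}) := by
    rw [← mul_assoc, ← ENNReal.ofReal_mul (Real.exp_pos _).le, ← Real.exp_add]
    simp
  rw [h6]
  calc ENNReal.ofReal (Real.exp (-(δ * c₁ / 2 * n * P)))
        * (ENNReal.ofReal (Real.exp (δ * c₁ / 2 * n * P))
          * law μ {t | size t = n ∧ Small m t})
      ≤ ENNReal.ofReal (Real.exp (-(δ * c₁ / 2 * n * P))) * ENNReal.ofReal (Real.exp l) := by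
        gcongr
    _ = ENNReal.ofReal (Real.exp (-(δ * c₁ / 2 * n * P) + l)) := by
        rw [← ENNReal.ofReal_mul (Real.exp_pos _).le, ← Real.exp_add]
    _ ≤ _ := by
        refine ENNReal.ofReal_le_ofReal (Real.exp_le_exp.2 ?_)
        linarith

end

end PT

end Pool.Agent.R974.LC
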